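import Mathlib
import Pool.Agent.CMTP.Final
import Pool.Agent.CMX.Targets

set_option autoImplicit false

/-!
# Tate classes on products of abelian varieties over finite fields: definitions and targets

An abelian variety over the field with `q` elements is described, up to isogeny, by its Weil numbers.
For a family of CM fields `K j` and Weil `q`-numbers `π j` in `K j`, the eigenvalues of the Frobenius
on the first cohomology of `∏ A_j ^ n_j` are the numbers `φ (π j)`, where `φ` is an embedding of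
`K j` into the algebraic numbers, each of them `n j` times.
-/

namespace Pool.Agent.FFT

open NumberField Finset Module
open Pool.Agent.CMT (QBar IsCMType cc)
open Pool.Agent.CMTP (toPerm)
open scoped BigOperators

/-! ## Definitions -/

/-- a Weil `q`-number in the CM field `K` -/
def IsWeil {K : Type} [Field K] [NumberField K] [IsCMField K] (q : ℕ) (π : K) : Prop :=
  IsIntegral ℤ π ∧ π * IsCMField.complexConj K π = q

/-- the Frobenius eigenlines in the first cohomology of `∏ A_j ^ n_j` -/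
abbrev Idx {J : Type} (K : J → Type) [∀ j, Field (K j)] (n : J → ℕ) : Type :=
  Σ j, (K j →+* QBar) × Fin (n j)

/-- Tate weights of codimension `i`: sets `Δ` of `2 i` eigenlines such that the product of the
eigenvalues is `q ^ i` times a root of unity. The line of `Δ` in the cohomology of degree `2 i`,
twisted `i` times, is then fixed by an open subgroup of the Galois group. -/
def TateWeight {J : Type} {K : J → Type} [∀ j, Field (K j)] (q : ℕ) (π : ∀ j, K j)
    {n : J → ℕ} (i : ℕ) (Δ : Finset (Idx K n)) : Prop :=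
  Δ.card = 2 * i ∧
    ∃ N : ℕ, 0 < N ∧ (∏ x ∈ Δ, x.2.1 (π x.1)) ^ N = (q : QBar) ^ (i * N)

/-- disjoint unions of Tate weights of codimension one -/
def Divisorial {J : Type} {K : J → Type} [∀ j, Field (K j)] (q : ℕ) (π : ∀ j, K j)
    {n : J → ℕ} (Δ : Finset (Idx K n)) : Prop :=
  ∃ D : Finset (Finset (Idx K n)),
    (D : Set (Finset (Idx K n))).PairwiseDisjoint id ∧
    (∀ x, x ∈ Δ ↔ ∃ B ∈ D, x ∈ B) ∧ ∀ B ∈ D, TateWeight q π 1 B

/-- all Tate classes, of all codimensions on all products of powers, are generated by divisor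
classes -/
def TateByDivisors {J : Type} {K : J → Type} [∀ j, Field (K j)] (q : ℕ) (π : ∀ j, K j) : Prop :=
  ∀ (n : J → ℕ) (i : ℕ) (Δ : Finset (Idx K n)), TateWeight q π i Δ → Divisorial q π Δ

/-- the slopes of `π` are rational numbers with denominator prime to `l`: for every embedding of `K`
into the algebraic closure of the `p`-adic numbers the slope `s = k / b`, given by
`‖ψ π‖ = ‖q‖ ^ s`, has a denominator `b` prime to `l`. -/
def SlopesPrimeTo {K : Type} [Field K] (p : ℕ) [Fact p.Prime] (q l : ℕ) (π : K) : Prop :=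
  ∀ ψ : K →+* PadicAlgCl p, ∃ b k : ℕ, ¬ l ∣ b ∧ ‖ψ π‖ ^ b = ‖(q : PadicAlgCl p)‖ ^ k

/-- the automorphism `τ` carries the embedding of the eigenline `x` into the CM type -/
def InType {J : Type} {K : J → Type} [∀ j, Field (K j)] (Φ : ∀ j, Finset (K j →+* QBar))
    {n : J → ℕ} (τ : QBar ≃+* QBar) : Idx K n → Prop
  | ⟨j, φ, _⟩ => (τ : QBar →+* QBar).comp φ ∈ Φ j

/-- characteristic zero: Tate weights on `∏ A_j ^ n_j` where `A_j` has CM type `(K j, Φ j)` -/
def CMWeight {J : Type} {K : J → Type} [∀ j, Field (K j)] (Φ : ∀ j, Finset (K j →+* QBar))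
    {n : J → ℕ} (i : ℕ) (Δ : Finset (Idx K n)) : Prop :=
  Δ.card = 2 * i ∧ ∀ τ : QBar ≃+* QBar, {x : Idx K n | x ∈ Δ ∧ InType Φ τ x}.ncard = i

/-- disjoint unions of Tate weights of codimension one -/
def CMDivisorial {J : Type} {K : J → Type} [∀ j, Field (K j)] (Φ : ∀ j, Finset (K j →+* QBar))
    {n : J → ℕ} (Δ : Finset (Idx K n)) : Prop :=
  ∃ D : Finset (Finset (Idx K n)),
    (D : Set (Finset (Idx K n))).PairwiseDisjoint id ∧
    (∀ x, x ∈ Δ ↔ ∃ B ∈ D, x ∈ B) ∧ ∀ B ∈ D, CMWeight Φ 1 B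

/-- all Tate classes on all products of powers are generated by divisor classes -/
def CMByDivisors {J : Type} {K : J → Type} [∀ j, Field (K j)] (Φ : ∀ j, Finset (K j →+* QBar)) :
    Prop :=
  ∀ (n : J → ℕ) (i : ℕ) (Δ : Finset (Idx K n)), CMWeight Φ i Δ → CMDivisorial Φ Δ

open Classical in
/-- the multiplicity of an embedding in a set of eigenlines -/
noncomputable def mult {J : Type} {K : J → Type} [∀ j, Field (K j)] {n : J → ℕ}
    (Δ : Finset (Idx K n)) (x : Σ j, K j →+* QBar) : ℤ :=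
  ((univ : Finset (Fin (n x.1))).filter (fun s => (⟨x.1, x.2, s⟩ : Idx K n) ∈ Δ)).card

/-- the action of an automorphism on the embeddings of all the fields -/
noncomputable def act {J : Type} (K : J → Type) [∀ j, Field (K j)] [∀ j, NumberField (K j)]
    (τ : QBar ≃+* QBar) : Equiv.Perm (Σ j, K j →+* QBar) :=
  Equiv.sigmaCongrRight fun j => toPerm (K j) τ

/-- complex conjugation on the embeddings of all the fields -/
noncomputable def conj {J : Type} {K : J → Type} [∀ j, Field (K j)] [∀ j, NumberField (K j)]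
    [∀ j, IsCMField (K j)] (x : Σ j, K j →+* QBar) : Σ j, K j →+* QBar :=
  ⟨x.1, cc x.2⟩

/-! ## Targets -/

/-- MATCH: equal multiplicities give a decomposition into conjugate pairs. -/
def T_MATCH : Prop := ∀ (J : Type) [Fintype J] (Y : J → Type) [∀ j, Fintype (Y j)] (n : J → ℕ)
  (c : ∀ j, Y j → Y j), (∀ j y, c j (c j y) = y) → (∀ j y, c j y ≠ y) →
  ∀ Δ : Finset (Σ j, Y j × Fin (n j)),
    (∀ j y, {s : Fin (n j) | (⟨j, y, s⟩ : Σ j, Y j × Fin (n j)) ∈ Δ}.ncard =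
      {s : Fin (n j) | (⟨j, c j y, s⟩ : Σ j, Y j × Fin (n j)) ∈ Δ}.ncard) →
    ∃ D : Finset (Finset (Σ j, Y j × Fin (n j))),
      (D : Set (Finset (Σ j, Y j × Fin (n j)))).PairwiseDisjoint id ∧
      (∀ x, x ∈ Δ ↔ ∃ B ∈ D, x ∈ B) ∧
      ∀ B ∈ D, ∃ (j : J) (y : Y j) (s t : Fin (n j)),
        ∀ x, x ∈ B ↔ x = ⟨j, y, s⟩ ∨ x = ⟨j, c j y, t⟩

/-- COMBA: the fixed vector of a Sylow 2-subgroup, several transitive blocks of 2-power size. -/
def T_COMBA : Prop := ∀ (J : Type) [Fintype J] (Y : J → Type) [∀ j, Fintype (Y j)]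
  (H : Subgroup (Equiv.Perm (Σ j, Y j))),
  (∀ h ∈ H, ∀ x, (h x).1 = x.1) →
  (∀ j, ∀ y y' : Y j, ∃ h ∈ H, h ⟨j, y⟩ = ⟨j, y'⟩) →
  (∀ j, ∃ m : ℕ, Fintype.card (Y j) = 2 ^ m) →
  ∀ c : (Σ j, Y j) → Σ j, Y j, (∀ x, c (c x) = x) → (∀ h ∈ H, ∀ x, c (h x) = h (c x)) →
  (∀ x, (c x).1 = x.1) →
  ∀ a : (Σ j, Y j) → ℤ, (∀ x, Odd (a x)) → (∀ x, a (c x) = - a x) →
  (∀ S : Finset J, S.Nonempty → ∃ h ∈ H,
    Odd {x : Σ j, Y j | x.1 ∈ S ∧ a x ≡ 1 [ZMOD 4] ∧ ¬ a (h x) ≡ 1 [ZMOD 4]}.ncard) →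
  ∀ f : (Σ j, Y j) → ℤ, (∀ x, f (c x) = - f x) → (∀ h ∈ H, ∑ x, a (h x) * f x = 0) → f = 0

/-- COMBB: the fixed vector of a Sylow `l`-subgroup on a set with `l ^ n` elements. -/
def T_COMBB : Prop := ∀ (Y : Type) [Fintype Y] (l n : ℕ), l.Prime → Fintype.card Y = l ^ n →
  ∀ H : Subgroup (Equiv.Perm Y), (∀ y y' : Y, ∃ h ∈ H, h y = y') →
  ∀ (w : Y → ℤ) (B : ℤ), ¬ (l : ℤ) ∣ ∑ y, w y → 2 * ∑ y, w y ≠ B * l ^ n →
  ∀ f : Y → ℤ, (∀ h ∈ H, ∑ y, (2 * w (h y) - B) * f y = 0) → f = 0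

/-- SIGN: the sign of a permutation which commutes with a fixed point free involution. -/
def T_SIGN : Prop := ∀ (X : Type) [Fintype X] [DecidableEq X] (g : Equiv.Perm X) (c : X → X),
  (∀ x, c (c x) = x) → (∀ x, c (g x) = g (c x)) →
  ∀ Φ : Finset X, (∀ x, x ∈ Φ ↔ c x ∉ Φ) →
    Equiv.Perm.sign g = (-1) ^ (Φ.filter (fun x => g x ∉ Φ)).card

open Classical in
/-- DISC: discriminants whose product is not a square. -/
def T_DISC : Prop := ∀ (J : Type) [Fintype J] (K : J → Type) [∀ j, Field (K j)]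
  [∀ j, NumberField (K j)] (S : Finset J), ¬ IsSquare (∏ j ∈ S, discr (K j)) →
  ∃ τ : QBar ≃+* QBar, ∏ j ∈ S, Equiv.Perm.sign (toPerm (K j) τ) = -1

/-- NORM: the slopes of the conjugates and the relations for Tate weights. -/
def T_NORM : Prop := ∀ (p : ℕ) [Fact p.Prime] (a q l : ℕ), 1 ≤ a → q = p ^ a → l.Prime →
  ∀ (J : Type) [Fintype J] (K : J → Type) [∀ j, Field (K j)] [∀ j, NumberField (K j)]
    [∀ j, IsCMField (K j)] (π : ∀ j, K j), (∀ j, IsWeil q (π j)) →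
    (∀ j, SlopesPrimeTo p q l (π j)) → ∀ ι : QBar →+* PadicAlgCl p,
    ∃ (B : ℕ) (w : (Σ j, K j →+* QBar) → ℤ), ¬ l ∣ B ∧ (∀ x, w x + w (conj x) = B) ∧
      (∀ x, ‖ι (x.2 (π x.1))‖ ^ B = ‖(q : PadicAlgCl p)‖ ^ (w x)) ∧
      ∀ (n : J → ℕ) (i : ℕ) (Δ : Finset (Idx K n)), TateWeight q π i Δ →
        ∀ τ : QBar ≃+* QBar, ∑ x, mult Δ x * (2 * w (act K τ x) - B) = 0

/-- PAR: independent discriminants give odd numbers of sign changes. -/
def T_PAR : Prop := ∀ (J : Type) [Fintype J] (K : J → Type) [∀ j, Field (K j)]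
  [∀ j, NumberField (K j)] [∀ j, IsCMField (K j)],
  (∀ S : Finset J, S.Nonempty → ¬ IsSquare (∏ j ∈ S, discr (K j))) →
  ∀ P : Set (Σ j, K j →+* QBar), (∀ x, x ∈ P ↔ conj x ∉ P) →
  ∀ S : Finset J, S.Nonempty → ∃ τ : QBar ≃+* QBar,
    Odd {x : Σ j, K j →+* QBar | x.1 ∈ S ∧ x ∈ P ∧ act K τ x ∉ P}.ncard

/-- FINF: conjugation invariant multiplicities are divisorial, finite fields. -/
def T_FINF : Prop := ∀ (J : Type) [Fintype J] (K : J → Type) [∀ j, Field (K j)]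
  [∀ j, NumberField (K j)] [∀ j, IsCMField (K j)] (q : ℕ) (π : ∀ j, K j),
  (∀ j, IsWeil q (π j)) → ∀ (n : J → ℕ) (Δ : Finset (Idx K n)),
    (∀ x, mult Δ x = mult Δ (conj x)) → Divisorial q π Δ

/-- FINC: conjugation invariant multiplicities are divisorial, number fields. -/
def T_FINC : Prop := ∀ (J : Type) [Fintype J] (K : J → Type) [∀ j, Field (K j)]
  [∀ j, NumberField (K j)] [∀ j, IsCMField (K j)] (Φ : ∀ j, Finset (K j →+* QBar)),
  (∀ j, IsCMType (K j) (Φ j)) → ∀ (n : J → ℕ) (Δ : Finset (Idx K n)),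
    (∀ x, mult Δ x = mult Δ (conj x)) → CMDivisorial Φ Δ

/-- ORD: an ordinary Weil number defines CM types, and a non-degenerate one gives Tate. -/
def T_ORD : Prop := ∀ (p : ℕ) [Fact p.Prime] (a q : ℕ), 1 ≤ a → q = p ^ a →
  ∀ (K : Type) [Field K] [NumberField K] [IsCMField K] (π : K), IsWeil q π →
    (∀ ψ : K →+* PadicAlgCl p, ‖ψ π‖ = 1 ∨ ‖ψ π‖ = ‖(q : PadicAlgCl p)‖) →
    ∀ (ι : QBar →+* PadicAlgCl p) (Φ : Finset (K →+* QBar)), (∀ φ, φ ∈ Φ ↔ ‖ι (φ π)‖ < 1) →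
      IsCMType K Φ ∧ (CMTP.NDeg (CMTP.HG K) cc Φ → TateByDivisors q (fun _ : Unit => π))

/-- CF: number fields, CM fields of 2-power degree with independent discriminants. -/
def T_CF : Prop := ∀ (J : Type) [Fintype J] (K : J → Type) [∀ j, Field (K j)]
  [∀ j, NumberField (K j)] [∀ j, IsCMField (K j)], (∀ j, ∃ m : ℕ, finrank ℚ (K j) = 2 ^ m) →
  (∀ S : Finset J, S.Nonempty → ¬ IsSquare (∏ j ∈ S, discr (K j))) →
  ∀ Φ : ∀ j, Finset (K j →+* QBar), (∀ j, IsCMType (K j) (Φ j)) → CMByDivisors Φ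

/-- FA: finite fields, Frobenius fields of 2-power degree with independent discriminants. -/
def T_FA : Prop := ∀ (p : ℕ) [Fact p.Prime] (a q : ℕ), 1 ≤ a → q = p ^ a →
  ∀ (J : Type) [Fintype J] (K : J → Type) [∀ j, Field (K j)] [∀ j, NumberField (K j)]
    [∀ j, IsCMField (K j)], (∀ j, ∃ m : ℕ, finrank ℚ (K j) = 2 ^ m) →
    (∀ S : Finset J, S.Nonempty → ¬ IsSquare (∏ j ∈ S, discr (K j))) →
    ∀ π : ∀ j, K j, (∀ j, IsWeil q (π j)) → (∀ j, SlopesPrimeTo p q 2 (π j)) →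
      TateByDivisors q π

/-- FB: finite fields, Frobenius fields of degree `2 l ^ n` which contain an imaginary quadratic
field `E`, the slopes of the norm to `E` are prime to `l`. -/
def T_FB : Prop := ∀ (p : ℕ) [Fact p.Prime] (a q : ℕ), 1 ≤ a → q = p ^ a →
  ∀ (l n : ℕ), l.Prime → 3 ≤ l ^ n →
  ∀ (E K : Type) [Field E] [NumberField E] [Field K] [NumberField K] [IsCMField K] [Algebra E K],
    finrank ℚ E = 2 → finrank ℚ K = 2 * l ^ n →
    (∃ e : E, IsCMField.complexConj K (algebraMap E K e) ≠ algebraMap E K e) →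
    ∀ π : K, IsWeil q π → SlopesPrimeTo p q l π →
      (∃ (ψ : E →+* PadicAlgCl p) (b k : ℕ), ¬ l ∣ k ∧ 0 < b ∧
        ‖ψ (Algebra.norm E π)‖ ^ b = ‖(q : PadicAlgCl p)‖ ^ k) →
      TateByDivisors q (fun _ : Unit => π)

/-- FC: all single sign changes, Weil numbers `π l s` such that the quotients
`π l s / conj (π l s)` are multiplicatively independent modulo roots of unity for every `l`. -/
def T_FC : Prop := ∀ (Λ : Type) [Fintype Λ] (K : Λ → Type) [∀ l, Field (K l)]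
  [∀ l, NumberField (K l)] [∀ l, IsCMField (K l)], CMX.HasFlips K →
  ∀ (q : ℕ), 0 < q → ∀ (m : Λ → ℕ) (π : ∀ l, Fin (m l) → K l), (∀ l s, IsWeil q (π l s)) →
    (∀ l (e : Fin (m l) → ℤ) (N : ℕ), 0 < N →
      (∏ s, (π l s / IsCMField.complexConj (K l) (π l s)) ^ e s) ^ N = 1 → e = 0) →
    TateByDivisors (K := fun x : Σ l, Fin (m l) => K x.1) q (fun x => π x.1 x.2)

end Pool.Agent.FFT
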