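import Mathlib
import Pool.Agent.FFT.Targets

set_option autoImplicit false

/-!
# Equal multiplicities give a decomposition into conjugate pairs
-/

namespace Pool.Agent.FFT

namespace MATCH_

theorem exists_bij {m : ℕ} (I I' : Set (Fin m)) (h : I.ncard = I'.ncard) :
    ∃ e : Fin m → Fin m, Set.BijOn e I I' := by
  classical
  have hc : I.toFinset.card = I'.toFinset.card := by
    rw [← Set.ncard_eq_toFinset_card', ← Set.ncard_eq_toFinset_card', h]
  let f := Finset.equivOfCardEq hc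
  refine ⟨fun j => if hj : j ∈ I.toFinset then (f ⟨j, hj⟩).1 else j, ?_, ?_, ?_⟩
  · intro j hj
    have hj' : j ∈ I.toFinset := Set.mem_toFinset.2 hj
    simp only [dif_pos hj']
    exact Set.mem_toFinset.1 (f ⟨j, hj'⟩).2
  · intro j hj l hl hjl
    have hj' : j ∈ I.toFinset := Set.mem_toFinset.2 hj
    have hl' : l ∈ I.toFinset := Set.mem_toFinset.2 hl
    simp only [dif_pos hj', dif_pos hl'] at hjl
    have := f.injective (Subtype.ext hjl)
    exact congrArg Subtype.val this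
  · intro l hl
    have hl' : l ∈ I'.toFinset := Set.mem_toFinset.2 hl
    refine ⟨(f.symm ⟨l, hl'⟩).1, Set.mem_toFinset.1 (f.symm ⟨l, hl'⟩).2, ?_⟩
    have hj' : (f.symm ⟨l, hl'⟩).1 ∈ I.toFinset := (f.symm ⟨l, hl'⟩).2
    simp only [dif_pos hj']
    rw [Subtype.coe_eta, Equiv.apply_symm_apply]

end MATCH_

open MATCH_ in
theorem p_MATCH : T_MATCH := by
  classical
  intro J _ Y _ n c hcc hne Δ hcard
  have h0 : ∀ j y, ∃ e : Fin (n j) → Fin (n j),
      Set.BijOn e {s : Fin (n j) | (⟨j, y, s⟩ : Σ j, Y j × Fin (n j)) ∈ Δ}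
        {s : Fin (n j) | (⟨j, c j y, s⟩ : Σ j, Y j × Fin (n j)) ∈ Δ} :=
    fun j y => exists_bij _ _ (hcard j y)
  choose e he using h0
  let f := fun j => Fintype.equivFin (Y j)
  let P : ∀ j, Y j → Prop := fun j y => f j y < f j (c j y)
  have hP : ∀ j y, P j y ↔ ¬ P j (c j y) := by
    intro j y
    show f j y < f j (c j y) ↔ ¬ (f j (c j y) < f j (c j (c j y)))
    rw [hcc, not_lt]
    have hne' : f j y ≠ f j (c j y) := fun h => hne j y ((f j).injective h).symm
    exact ⟨fun h => h.le, fun h => lt_of_le_of_ne h hne'⟩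
  let B : (Σ j, Y j × Fin (n j)) → Finset (Σ j, Y j × Fin (n j)) :=
    fun p => {p, ⟨p.1, c p.1 p.2.1, e p.1 p.2.1 p.2.2⟩}
  have hBmem : ∀ (p q : Σ j, Y j × Fin (n j)),
      q ∈ B p ↔ q = p ∨ q = ⟨p.1, c p.1 p.2.1, e p.1 p.2.1 p.2.2⟩ := by
    intro p q
    simp [B]
  refine ⟨(Δ.filter (fun p => P p.1 p.2.1)).image B, ?_, ?_, ?_⟩
  · intro B1 h1 B2 h2 hne12
    rw [Finset.mem_coe, Finset.mem_image] at h1 h2
    obtain ⟨p, hp, rfl⟩ := h1
    obtain ⟨q, hq, rfl⟩ := h2
    rw [Finset.mem_filter] at hp hq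
    rw [Function.onFun, id, id, Finset.disjoint_left]
    intro z hz1 hz2
    rw [hBmem] at hz1 hz2
    have hpc := (hP _ _).1 hp.2
    have hqc := (hP _ _).1 hq.2
    rcases hz1 with hz1 | hz1
    · rcases hz2 with hz2 | hz2
      · exact hne12 (by rw [← hz1, ← hz2])
      · apply hqc
        have h3 : p = ⟨q.1, c q.1 q.2.1, e q.1 q.2.1 q.2.2⟩ := by rw [← hz1, hz2]
        have h4 := hp.2
        rw [h3] at h4
        exact h4
    · rcases hz2 with hz2 | hz2
      · apply hpc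
        have h3 : q = ⟨p.1, c p.1 p.2.1, e p.1 p.2.1 p.2.2⟩ := by rw [← hz1, hz2]
        have h4 := hq.2
        rw [h3] at h4
        exact h4
      · apply hne12
        have h3 : (⟨p.1, c p.1 p.2.1, e p.1 p.2.1 p.2.2⟩ : Σ j, Y j × Fin (n j)) =
          ⟨q.1, c q.1 q.2.1, e q.1 q.2.1 q.2.2⟩ := by rw [← hz1, hz2]
        obtain ⟨j, y, s⟩ := p
        obtain ⟨j', y', s'⟩ := q
        have h4 : j = j' := congrArg Sigma.fst h3
        subst h4
        simp only [Sigma.mk.inj_iff, heq_eq_eq, Prod.mk.injEq, true_and] at h3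
        have h5 : y = y' := by rw [← hcc j y, h3.1, hcc]
        subst h5
        have h6 : s = s' := (he j y).injOn hp.1 hq.1 h3.2
        subst h6
        rfl
  · intro x
    constructor
    · intro hx
      by_cases hPx : P x.1 x.2.1
      · exact ⟨B x, Finset.mem_image_of_mem _ (Finset.mem_filter.2 ⟨hx, hPx⟩),
          (hBmem _ _).2 (Or.inl rfl)⟩
      · obtain ⟨j, y, s⟩ := x
        have h1 : P j (c j y) := by
          by_contra h
          exact hPx ((hP j y).2 h)
        have h2 : s ∈ {s : Fin (n j) | (⟨j, c j (c j y), s⟩ : Σ j, Y j × Fin (n j)) ∈ Δ} := by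
          show (⟨j, c j (c j y), s⟩ : Σ j, Y j × Fin (n j)) ∈ Δ
          rw [hcc]
          exact hx
        obtain ⟨t, ht, hts⟩ := (he j (c j y)).surjOn h2
        refine ⟨B ⟨j, c j y, t⟩, Finset.mem_image_of_mem _ (Finset.mem_filter.2 ⟨ht, h1⟩),
          (hBmem _ _).2 (Or.inr ?_)⟩
        show (⟨j, y, s⟩ : Σ j, Y j × Fin (n j)) = ⟨j, c j (c j y), e j (c j y) t⟩
        rw [hts, hcc]
    · rintro ⟨B1, h1, hx⟩
      rw [Finset.mem_image] at h1
      obtain ⟨p, hp, rfl⟩ := h1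
      rw [Finset.mem_filter] at hp
      rw [hBmem] at hx
      rcases hx with rfl | rfl
      · exact hp.1
      · exact (he p.1 p.2.1).mapsTo (x := p.2.2) hp.1
  · intro B1 h1
    rw [Finset.mem_image] at h1
    obtain ⟨p, hp, rfl⟩ := h1
    exact ⟨p.1, p.2.1, p.2.2, e p.1 p.2.1 p.2.2, fun x => hBmem p x⟩

end Pool.Agent.FFT
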