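import Pool.Agent.FFT.Targets

set_option autoImplicit false

/-!
# FINF: conjugation invariant multiplicities are divisorial
-/

namespace Pool.Agent.FFT

open NumberField Finset Module
open Pool.Agent.CMT (QBar IsCMType cc)
open Pool.Agent.CMTP (toPerm)
open scoped BigOperators

namespace FINF_

variable {J : Type} {K : J → Type} [∀ j, Field (K j)] [∀ j, NumberField (K j)]
  [∀ j, IsCMField (K j)] {n : J → ℕ}

omit [∀ j, IsCMField (K j)] in
theorem ncard_mult (Δ : Finset (Idx K n)) (j : J) (y : K j →+* QBar) :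
    (({s : Fin (n j) | (⟨j, y, s⟩ : Idx K n) ∈ Δ}.ncard : ℕ) : ℤ) = mult Δ ⟨j, y⟩ := by
  classical
  unfold mult
  rw [← Set.ncard_coe_finset]
  congr 2
  ext s
  simp

theorem decomp [Fintype J] (h : T_MATCH) (Δ : Finset (Idx K n))
    (hΔ : ∀ x, mult Δ x = mult Δ (conj x)) :
    ∃ D : Finset (Finset (Idx K n)),
      (D : Set (Finset (Idx K n))).PairwiseDisjoint id ∧
      (∀ x, x ∈ Δ ↔ ∃ B ∈ D, x ∈ B) ∧
      ∀ B ∈ D, ∃ (j : J) (y : K j →+* QBar) (s t : Fin (n j)),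
        ∀ x, x ∈ B ↔ x = ⟨j, y, s⟩ ∨ x = ⟨j, cc y, t⟩ := by
  refine h J (fun j => K j →+* QBar) n (fun j y => cc y)
    (fun j y => Pool.Agent.CMT.cc_cc y) (fun j y => Pool.Agent.CMTP.cc_ne y) Δ ?_
  intro j y
  have h1 := hΔ ⟨j, y⟩
  have h2 := ncard_mult Δ j y
  have h3 := ncard_mult Δ j (cc y)
  have h4 : conj (⟨j, y⟩ : Σ j, K j →+* QBar) = ⟨j, cc y⟩ := rfl
  rw [h4] at h1
  have h5 : (({s : Fin (n j) | (⟨j, y, s⟩ : Idx K n) ∈ Δ}.ncard : ℕ) : ℤ) =
      (({s : Fin (n j) | (⟨j, cc y, s⟩ : Idx K n) ∈ Δ}.ncard : ℕ) : ℤ) := by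
    rw [h2, h3, h1]
  exact_mod_cast h5

theorem pair_ne (j : J) (y : K j →+* QBar) (s t : Fin (n j)) :
    (⟨j, y, s⟩ : Idx K n) ≠ ⟨j, cc y, t⟩ := by
  intro h
  rw [Sigma.mk.injEq] at h
  have h1 := eq_of_heq h.2
  exact Pool.Agent.CMTP.cc_ne y (congrArg Prod.fst h1).symm

theorem pair_eq [DecidableEq (Idx K n)] {B : Finset (Idx K n)} {j : J} {y : K j →+* QBar}
    {s t : Fin (n j)} (hB : ∀ x, x ∈ B ↔ x = ⟨j, y, s⟩ ∨ x = ⟨j, cc y, t⟩) :
    B = {⟨j, y, s⟩, ⟨j, cc y, t⟩} := by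
  ext x
  rw [hB]
  simp

end FINF_

open FINF_ in
theorem p_FINF (h : T_MATCH) : T_FINF := by
  classical
  intro J _ K _ _ _ q π hπ n Δ hΔ
  obtain ⟨D, h1, h2, h3⟩ := decomp h Δ hΔ
  refine ⟨D, h1, h2, ?_⟩
  intro B hB
  obtain ⟨j, y, s, t, hB'⟩ := h3 B hB
  have hpe := pair_eq hB'
  refine ⟨?_, 1, one_pos, ?_⟩
  · rw [hpe, Finset.card_pair (pair_ne j y s t)]
  · rw [hpe, Finset.prod_pair (pair_ne j y s t)]
    simp only [pow_one, mul_one]
    have h4 : (cc y) (π j) = y (IsCMField.complexConj (K j) (π j)) := rfl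
    rw [h4, ← map_mul, (hπ j).2, map_natCast]

open FINF_ in
theorem p_FINC (h : T_MATCH) : T_FINC := by
  classical
  intro J _ K _ _ _ Φ hΦ n Δ hΔ
  obtain ⟨D, h1, h2, h3⟩ := decomp h Δ hΔ
  refine ⟨D, h1, h2, ?_⟩
  intro B hB
  obtain ⟨j, y, s, t, hB'⟩ := h3 B hB
  have hpe := pair_eq hB'
  refine ⟨?_, fun τ => ?_⟩
  · rw [hpe, Finset.card_pair (pair_ne j y s t)]
  · have hcomp : (τ : QBar →+* QBar).comp (cc y) = cc ((τ : QBar →+* QBar).comp y) := rfl
    by_cases hy : (τ : QBar →+* QBar).comp y ∈ Φ j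
    · have h5 : {x : Idx K n | x ∈ B ∧ InType Φ τ x} =
          {⟨j, y, s⟩} := by
        ext x
        rw [Set.mem_ofPred_eq, Set.mem_singleton_iff]
        constructor
        · rintro ⟨h6, h7⟩
          rcases (hB' x).1 h6 with rfl | rfl
          · rfl
          · exfalso
            have h8 : (τ : QBar →+* QBar).comp (cc y) ∈ Φ j := h7
            rw [hcomp] at h8
            exact (Pool.Agent.CMT.cc_mem (hΦ j) _).1 hy h8
        · rintro rfl
          exact ⟨(hB' _).2 (Or.inl rfl), hy⟩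
      rw [h5, Set.ncard_singleton]
    · have h5 : {x : Idx K n | x ∈ B ∧ InType Φ τ x} =
          {⟨j, cc y, t⟩} := by
        ext x
        rw [Set.mem_ofPred_eq, Set.mem_singleton_iff]
        constructor
        · rintro ⟨h6, h7⟩
          rcases (hB' x).1 h6 with rfl | rfl
          · exact absurd h7 hy
          · rfl
        · rintro rfl
          refine ⟨(hB' _).2 (Or.inr rfl), ?_⟩
          show (τ : QBar →+* QBar).comp (cc y) ∈ Φ j
          rw [hcomp]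
          by_contra h8
          exact hy ((Pool.Agent.CMT.cc_mem (hΦ j) _).2 h8)
      rw [h5, Set.ncard_singleton]

end Pool.Agent.FFT
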