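import Mathlib
import Pool.Agent.FFT.Targets

set_option autoImplicit false

/-!
# Slopes of Weil numbers and the relations for Tate weights
-/

namespace Pool.Agent.FFT

namespace NORM_

open NumberField Finset Module
open Pool.Agent.CMT (QBar IsCMType cc)
open Pool.Agent.CMTP (toPerm)
open scoped BigOperators

theorem norm_q_pos (p : ℕ) [Fact p.Prime] (a q : ℕ) (hq : q = p ^ a) :
    0 < ‖(q : PadicAlgCl p)‖ := by
  rw [norm_pos_iff]
  have : q ≠ 0 := by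
    rw [hq]
    exact pow_ne_zero _ (Fact.out : p.Prime).ne_zero
  exact_mod_cast this

theorem norm_q_lt (p : ℕ) [Fact p.Prime] (a q : ℕ) (ha : 1 ≤ a) (hq : q = p ^ a) :
    ‖(q : PadicAlgCl p)‖ < 1 := by
  have h1 : (q : PadicAlgCl p) = algebraMap ℚ_[p] (PadicAlgCl p) ((p : ℚ_[p]) ^ a) := by
    rw [hq]
    push_cast
    simp
  rw [h1, PadicAlgCl.norm_extends, norm_pow]
  exact pow_lt_one₀ (norm_nonneg _) Padic.norm_p_lt_one (by omega)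

open Classical in
theorem sum_mult {J : Type} [Fintype J] {K : J → Type} [∀ j, Field (K j)]
    [∀ j, NumberField (K j)] {n : J → ℕ} (Δ : Finset (Idx K n))
    (g : (Σ j, K j →+* QBar) → ℤ) :
    ∑ x, mult Δ x * g x = ∑ z ∈ Δ, g ⟨z.1, z.2.1⟩ := by
  have h1 : ∑ z ∈ Δ, g ⟨z.1, z.2.1⟩ =
      ∑ x : (Σ j, K j →+* QBar), ∑ z ∈ Δ with (⟨z.1, z.2.1⟩ : Σ j, K j →+* QBar) = x,
        g ⟨z.1, z.2.1⟩ :=
    (Finset.sum_fiberwise Δ (fun z => (⟨z.1, z.2.1⟩ : Σ j, K j →+* QBar)) _).symm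
  rw [h1]
  refine Finset.sum_congr rfl fun x _ => ?_
  have h2 : ∑ z ∈ Δ with (⟨z.1, z.2.1⟩ : Σ j, K j →+* QBar) = x, g ⟨z.1, z.2.1⟩ =
      ∑ z ∈ Δ with (⟨z.1, z.2.1⟩ : Σ j, K j →+* QBar) = x, g x := by
    refine Finset.sum_congr rfl fun z hz => ?_
    rw [(Finset.mem_filter.1 hz).2]
  rw [h2, Finset.sum_const, nsmul_eq_mul]
  congr 1
  unfold mult
  norm_cast
  refine Finset.card_bij (fun s _ => (⟨x.1, x.2, s⟩ : Idx K n)) ?_ ?_ ?_
  · intro s hs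
    refine Finset.mem_filter.2 ⟨(Finset.mem_filter.1 hs).2, ?_⟩
    rfl
  · intro s _ s' _ h
    have h3 := eq_of_heq (Sigma.mk.inj h).2
    exact (Prod.mk.inj h3).2
  · rintro ⟨j, φ, s⟩ hz
    obtain ⟨hz1, hz2⟩ := Finset.mem_filter.1 hz
    subst hz2
    exact ⟨s, Finset.mem_filter.2 ⟨Finset.mem_univ _, hz1⟩, rfl⟩

end NORM_

open NORM_ Finset in
open Pool.Agent.CMT (QBar IsCMType cc) in
theorem p_NORM : T_NORM := by
  classical
  intro p _ a q l ha hq hl J _ K _ _ _ π hW hS ι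
  have h0 : ∀ x : (Σ j, K j →+* QBar), ∃ b k : ℕ, ¬ l ∣ b ∧
      ‖ι (x.2 (π x.1))‖ ^ b = ‖(q : PadicAlgCl p)‖ ^ k := fun x => hS x.1 (ι.comp x.2)
  choose b k hb hbk using h0
  have hr0 : 0 < ‖(q : PadicAlgCl p)‖ := norm_q_pos p a q hq
  have hr1 : ‖(q : PadicAlgCl p)‖ < 1 := norm_q_lt p a q ha hq
  set r : ℝ := ‖(q : PadicAlgCl p)‖ with hr
  have hinj : ∀ m m' : ℕ, r ^ m = r ^ m' → m = m' := fun m m' h =>
    pow_right_injective₀ hr0 hr1.ne h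
  let B : ℕ := ∏ x, b x
  let w' : (Σ j, K j →+* QBar) → ℕ := fun x => k x * ∏ y ∈ univ.erase x, b y
  have hBx : ∀ x, b x * ∏ y ∈ univ.erase x, b y = B := fun x =>
    Finset.mul_prod_erase univ b (mem_univ x)
  have hw' : ∀ x : (Σ j, K j →+* QBar), ‖ι (x.2 (π x.1))‖ ^ B = r ^ w' x := by
    intro x
    rw [← hBx x, pow_mul, hbk x, ← pow_mul]
  have hlB : ¬ l ∣ B := by
    intro h
    obtain ⟨x, _, hx⟩ := (Prime.dvd_finset_prod_iff (Nat.prime_iff.1 hl) b).1 h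
    exact hb x hx
  refine ⟨B, fun x => (w' x : ℤ), hlB, ?_, ?_, ?_⟩
  · intro x
    have h1 : ι (x.2 (π x.1)) * ι ((cc x.2) (π x.1)) = (q : PadicAlgCl p) := by
      rw [← map_mul, CMTP.cc_apply, ← map_mul, (hW x.1).2, map_natCast, map_natCast]
    have h2 : r ^ (w' x + w' (conj x)) = r ^ B := by
      rw [pow_add, ← hw' x, ← hw' (conj x), ← mul_pow]
      congr 1
      show ‖ι (x.2 (π x.1))‖ * ‖ι ((cc x.2) (π x.1))‖ = r
      rw [← norm_mul, h1]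
    have h3 := hinj _ _ h2
    show ((w' x : ℕ) : ℤ) + ((w' (conj x) : ℕ) : ℤ) = ((B : ℕ) : ℤ)
    exact_mod_cast h3
  · intro x
    show ‖ι (x.2 (π x.1))‖ ^ B = r ^ ((w' x : ℕ) : ℤ)
    rw [zpow_natCast]
    exact hw' x
  · intro n i Δ hΔ τ
    obtain ⟨hcard, N, hN, hprod⟩ := hΔ
    rw [sum_mult Δ (fun x => 2 * ((w' (act K τ x) : ℕ) : ℤ) - ((B : ℕ) : ℤ))]
    have h1 : (∏ x ∈ Δ, ‖ι (τ (x.2.1 (π x.1)))‖) ^ N = r ^ (i * N) := by
      have h2 := congrArg (fun z : QBar => ‖ι (τ z)‖) hprod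
      simp only [map_pow, map_prod, map_natCast, norm_pow] at h2
      rw [norm_prod] at h2
      exact h2
    have h3 : ∀ z ∈ Δ, ‖ι (τ (z.2.1 (π z.1)))‖ ^ B = r ^ w' (act K τ ⟨z.1, z.2.1⟩) := by
      intro z _
      exact hw' (act K τ ⟨z.1, z.2.1⟩)
    have h4 : r ^ ((∑ z ∈ Δ, w' (act K τ ⟨z.1, z.2.1⟩)) * N) = r ^ (i * B * N) := by
      rw [pow_mul, ← Finset.prod_pow_eq_pow_sum, ← Finset.prod_congr rfl h3,
        Finset.prod_pow, ← pow_mul, mul_comm B N, pow_mul, h1, ← pow_mul]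
      congr 1
      ring
    have h5 := hinj _ _ h4
    have h6 : ∑ z ∈ Δ, w' (act K τ ⟨z.1, z.2.1⟩) = i * B := Nat.eq_of_mul_eq_mul_right hN h5
    rw [Finset.sum_sub_distrib, ← Finset.mul_sum, Finset.sum_const, hcard, nsmul_eq_mul,
      ← Nat.cast_sum, h6]
    push_cast
    ring

end Pool.Agent.FFT
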