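import Pool.Agent.FFT.Targets

set_option autoImplicit false

/-!
# ORD: ordinary Weil numbers and CM types
-/

namespace Pool.Agent.FFT

open NumberField Finset Module
open Pool.Agent.CMT (QBar IsCMType cc cc_cc)
open Pool.Agent.CMTP (toPerm)
open scoped BigOperators

namespace ORD_

theorem norm_q (p : ℕ) [hp : Fact p.Prime] (a q : ℕ) (ha : 1 ≤ a) (hq : q = p ^ a) :
    0 < ‖(q : PadicAlgCl p)‖ ∧ ‖(q : PadicAlgCl p)‖ < 1 := by
  have hq0 : q ≠ 0 := by
    rw [hq]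
    exact pow_ne_zero _ hp.out.ne_zero
  have h1 : ‖(q : PadicAlgCl p)‖ = ‖(q : ℚ_[p])‖ := by
    have := PadicAlgCl.norm_extends p (q : ℚ_[p])
    rw [← this]
    congr 1
  rw [h1]
  constructor
  · rw [norm_pos_iff]
    exact Nat.cast_ne_zero.2 hq0
  · rw [hq]
    push_cast
    rw [norm_pow]
    have h2 : ‖(p : ℚ_[p])‖ < 1 := Padic.norm_p_lt_one
    exact pow_lt_one₀ (norm_nonneg _) h2 (by omega)

theorem norm_mul_cc (p : ℕ) [Fact p.Prime] (q : ℕ) (K : Type) [Field K] [NumberField K]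
    [IsCMField K] (π : K) (hπ : IsWeil q π) (ι : QBar →+* PadicAlgCl p) (φ : K →+* QBar) :
    ‖ι (φ π)‖ * ‖ι (cc φ π)‖ = ‖(q : PadicAlgCl p)‖ := by
  rw [← norm_mul, ← map_mul]
  have : φ π * cc φ π = (q : QBar) := by
    show φ π * φ (IsCMField.complexConj K π) = q
    rw [← map_mul, hπ.2, map_natCast]
  rw [this, map_natCast]

end ORD_

open ORD_ in
theorem p_ORD (h1 : T_NORM) (h2 : T_FINF) : T_ORD := by
  classical
  intro p hp a q ha hq K _ _ _ π hπ hord ι Φ hΦ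
  obtain ⟨hN0, hN1⟩ := norm_q p a q ha hq
  have hval : ∀ φ : K →+* QBar, ‖ι (φ π)‖ = 1 ∨ ‖ι (φ π)‖ = ‖(q : PadicAlgCl p)‖ :=
    fun φ => hord (ι.comp φ)
  have hcm : ∀ φ : K →+* QBar, φ ∈ Φ ↔ cc φ ∉ Φ := by
    intro φ
    have e := norm_mul_cc p q K π hπ ι φ
    rw [hΦ, hΦ]
    rcases hval φ with h | h
    · rw [h, one_mul] at e
      rw [h, e]
      simp only [lt_self_iff_false, false_iff, not_not]
      exact hN1
    · rw [h] at e
      have e' : ‖ι (cc φ π)‖ = 1 := by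
        have : ‖(q : PadicAlgCl p)‖ * ‖ι (cc φ π)‖ = ‖(q : PadicAlgCl p)‖ * 1 := by
          rw [e, mul_one]
        exact mul_left_cancel₀ hN0.ne' this
      rw [h, e']
      simp only [lt_self_iff_false, not_false_iff, iff_true]
      exact hN1
  refine ⟨hcm, ?_⟩
  intro hnd n i Δ hΔ
  have hsl : SlopesPrimeTo p q 2 π := by
    intro ψ
    rcases hord ψ with h | h
    · exact ⟨1, 0, by norm_num, by rw [h]; simp⟩
    · exact ⟨1, 1, by norm_num, by rw [h]⟩
  obtain ⟨B, w, hB, -, hw, hrel⟩ := h1 p a q 2 ha hq Nat.prime_two Unit (fun _ => K)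
    (fun _ => π) (fun _ => hπ) (fun _ => hsl) ι
  have hB0 : (B : ℤ) ≠ 0 := by
    intro h0
    apply hB
    have : B = 0 := by exact_mod_cast h0
    rw [this]
    exact dvd_zero 2
  have hw1 : ∀ φ : K →+* QBar, φ ∈ Φ → w ⟨(), φ⟩ = B := by
    intro φ hφ
    have e := hw ⟨(), φ⟩
    have e1 : ‖ι (φ π)‖ = ‖(q : PadicAlgCl p)‖ := by
      rcases hval φ with h | h
      · exact absurd ((hΦ φ).1 hφ) (by rw [h]; exact lt_irrefl 1)
      · exact h
    simp only [e1] at e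
    rw [← zpow_natCast] at e
    exact (zpow_right_injective₀ hN0 hN1.ne e).symm
  have hw0 : ∀ φ : K →+* QBar, φ ∉ Φ → w ⟨(), φ⟩ = 0 := by
    intro φ hφ
    have e := hw ⟨(), φ⟩
    have e1 : ‖ι (φ π)‖ = 1 := by
      rcases hval φ with h | h
      · exact h
      · exact absurd ((hΦ φ).2 (by rw [h]; exact hN1)) hφ
    simp only [e1, one_pow] at e
    rw [← zpow_zero (‖(q : PadicAlgCl p)‖)] at e
    exact (zpow_right_injective₀ hN0 hN1.ne e).symm
  let M : (K →+* QBar) → ℤ := fun φ => mult (K := fun _ : Unit => K) Δ ⟨(), φ⟩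
  have hsum : ∀ τ : QBar ≃+* QBar,
      ∑ φ, M φ * (2 * w ⟨(), toPerm K τ φ⟩ - B) = 0 := by
    intro τ
    have e := hrel n i Δ hΔ τ
    rw [Fintype.sum_sigma, Fintype.sum_unique] at e
    exact e
  have hf := hnd (fun φ => M φ - M (cc φ)) ?_ ?_
  · refine h2 Unit (fun _ => K) q (fun _ => π) (fun _ => hπ) n Δ ?_
    rintro ⟨⟨⟩, φ⟩
    have e := congrFun hf φ
    simp only [Pi.zero_apply] at e
    have e2 : M φ = M (cc φ) := by omega
    exact e2
  · intro φ
    show M (cc φ) - M (cc (cc φ)) = -(M φ - M (cc φ))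
    rw [cc_cc]
    ring
  · rintro _ ⟨τ, rfl⟩
    have e := hsum τ⁻¹
    have e1 : ∑ φ, M φ * (2 * w ⟨(), toPerm K τ⁻¹ φ⟩ - B) =
        ∑ φ, M (toPerm K τ φ) * (2 * w ⟨(), φ⟩ - B) := by
      refine (Fintype.sum_equiv (toPerm K τ) _ _ fun φ => ?_).symm
      have h6 : toPerm K τ⁻¹ (toPerm K τ φ) = φ := by
        rw [map_inv]
        exact (toPerm K τ).symm_apply_apply φ
      rw [h6]
    rw [e1, ← Finset.sum_add_sum_compl Φ] at e
    have e2 : ∑ φ ∈ Φ, M (toPerm K τ φ) * (2 * w ⟨(), φ⟩ - B) =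
        B * ∑ φ ∈ Φ, M (toPerm K τ φ) := by
      rw [Finset.mul_sum]
      refine Finset.sum_congr rfl fun φ hφ => ?_
      rw [hw1 φ hφ]
      ring
    have e3 : ∑ φ ∈ Φᶜ, M (toPerm K τ φ) * (2 * w ⟨(), φ⟩ - B) =
        - (B * ∑ φ ∈ Φ, M (cc (toPerm K τ φ))) := by
      rw [Finset.mul_sum, ← Finset.sum_neg_distrib]
      refine Finset.sum_bij' (fun φ _ => cc φ) (fun φ _ => cc φ) ?_ ?_ ?_ ?_ ?_
      · intro φ hφ
        rw [Finset.mem_compl] at hφ
        by_contra h3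
        exact hφ ((hcm φ).2 h3)
      · intro φ hφ
        rw [Finset.mem_compl]
        exact (hcm φ).1 hφ
      · intro φ _
        exact cc_cc φ
      · intro φ _
        exact cc_cc φ
      · intro φ hφ
        rw [Finset.mem_compl] at hφ
        have h5 : cc (toPerm K τ (cc φ)) = toPerm K τ φ := by
          show cc (cc (toPerm K τ φ)) = _
          rw [cc_cc]
        rw [hw0 φ hφ, h5]
        ring
    rw [e2, e3] at e
    have e4 : (B : ℤ) * (∑ φ ∈ Φ, (M (toPerm K τ φ) - M (cc (toPerm K τ φ)))) = 0 := by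
      rw [Finset.sum_sub_distrib, mul_sub]
      linarith
    exact (mul_eq_zero.1 e4).resolve_left hB0

end Pool.Agent.FFT
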