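import Pool.Agent.FFT.Targets

set_option autoImplicit false
set_option linter.unusedSectionVars false

/-!
# CF: number fields, CM fields of 2-power degree with independent discriminants
-/

namespace Pool.Agent.FFT

open NumberField Finset Module
open Pool.Agent.CMT (QBar IsCMType cc cc_cc)
open Pool.Agent.CMTP (toPerm)
open scoped BigOperators

namespace CF_

variable {J : Type} {K : J → Type} [∀ j, Field (K j)] [∀ j, NumberField (K j)]
  {n : J → ℕ}

theorem count [Fintype J] (Δ : Finset (Idx K n)) (P : (Σ j, K j →+* QBar) → Prop)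
    [DecidablePred P] :
    (({x : Idx K n | x ∈ Δ ∧ P ⟨x.1, x.2.1⟩}.ncard : ℕ) : ℤ) =
      ∑ x : (Σ j, K j →+* QBar), if P x then mult Δ x else 0 := by
  classical
  have h1 : {x : Idx K n | x ∈ Δ ∧ P ⟨x.1, x.2.1⟩}.ncard =
      (univ.filter (fun x : Idx K n => x ∈ Δ ∧ P ⟨x.1, x.2.1⟩)).card := by
    rw [← Set.ncard_coe_finset]
    congr 1
    ext p
    simp
  rw [h1, Finset.card_filter, Fintype.sum_sigma, Fintype.sum_sigma]
  push_cast
  refine Finset.sum_congr rfl fun j _ => ?_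
  rw [Fintype.sum_prod_type]
  refine Finset.sum_congr rfl fun φ _ => ?_
  by_cases h : P ⟨j, φ⟩
  · simp only [h, and_true, if_true]
    unfold mult
    rw [Finset.card_filter]
    push_cast
    rfl
  · simp [h]

variable (K) in
/-- the action as a homomorphism -/
noncomputable def actHom : (QBar ≃+* QBar) →* Equiv.Perm (Σ j, K j →+* QBar) where
  toFun := act K
  map_one' := by
    ext x
    · rfl
    · rfl
  map_mul' := fun a b => by
    ext x
    · rfl
    · rfl

variable [∀ j, IsCMField (K j)]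

theorem conj_conj (x : Σ j, K j →+* QBar) : conj (conj x) = x := by
  obtain ⟨j, φ⟩ := x
  show (⟨j, cc (cc φ)⟩ : Σ j, K j →+* QBar) = ⟨j, φ⟩
  rw [cc_cc]

theorem act_conj (τ : QBar ≃+* QBar) (x : Σ j, K j →+* QBar) :
    conj (act K τ x) = act K τ (conj x) := rfl

open Classical in
/-- the signs -/
noncomputable def sg (Φ : ∀ j, Finset (K j →+* QBar)) (x : Σ j, K j →+* QBar) : ℤ :=
  if x.2 ∈ Φ x.1 then 1 else -1

theorem sg_conj {Φ : ∀ j, Finset (K j →+* QBar)} (hΦ : ∀ j, IsCMType (K j) (Φ j))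
    (x : Σ j, K j →+* QBar) : sg Φ (conj x) = - sg Φ x := by
  classical
  have h : x.2 ∈ Φ x.1 ↔ cc x.2 ∉ Φ x.1 := hΦ x.1 x.2
  unfold sg conj
  by_cases h1 : x.2 ∈ Φ x.1
  · have h2 := h.1 h1
    simp only [h1, h2, if_true, if_false]
  · have h2 : cc x.2 ∈ Φ x.1 := by
      by_contra h3
      exact h1 (h.2 h3)
    simp only [h1, h2, if_true, if_false]
    norm_num

theorem relation [Fintype J] (Φ : ∀ j, Finset (K j →+* QBar)) (i : ℕ) (Δ : Finset (Idx K n))
    (hΔ : CMWeight Φ i Δ) (τ : QBar ≃+* QBar) :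
    ∑ x, sg Φ (act K τ x) * mult Δ x = 0 := by
  classical
  obtain ⟨h1, h2⟩ := hΔ
  have h3 := count Δ (fun x => (act K τ x).2 ∈ Φ x.1)
  have h4 := count Δ (fun _ => True)
  have h5 : {x : Idx K n | x ∈ Δ ∧ True}.ncard = 2 * i := by
    rw [← h1, ← Set.ncard_coe_finset]
    congr 1
    ext p
    simp
  have h6 : {x : Idx K n | x ∈ Δ ∧ (act K τ ⟨x.1, x.2.1⟩).2 ∈ Φ x.1}.ncard = i := h2 τ
  have h3' : (i : ℤ) = ∑ x : (Σ j, K j →+* QBar),
      if (act K τ x).2 ∈ Φ x.1 then mult Δ x else 0 := by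
    rw [← h3]
    exact_mod_cast h6.symm
  have h4' : (2 * i : ℤ) = ∑ x : (Σ j, K j →+* QBar), mult Δ x := by
    simp only [if_true] at h4
    rw [← h4, h5]
    push_cast
    ring
  have h7 : ∑ x, sg Φ (act K τ x) * mult Δ x = 2 * (∑ x : (Σ j, K j →+* QBar),
      if (act K τ x).2 ∈ Φ x.1 then mult Δ x else 0) - ∑ x : (Σ j, K j →+* QBar), mult Δ x := by
    rw [Finset.mul_sum, ← Finset.sum_sub_distrib]
    refine Finset.sum_congr rfl fun x _ => ?_
    unfold sg
    have e : (act K τ x).1 = x.1 := rfl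
    by_cases h : (act K τ x).2 ∈ Φ x.1
    · have h' : (act K τ x).2 ∈ Φ (act K τ x).1 := h
      rw [if_pos h, if_pos h']
      ring
    · have h' : (act K τ x).2 ∉ Φ (act K τ x).1 := h
      rw [if_neg h, if_neg h']
      ring
  rw [h7, ← h3', ← h4']
  ring

end CF_

open CF_ in
/-- CF -/
theorem p_CF (h1 : T_COMBA) (h2 : T_PAR) (h3 : T_FINC) : T_CF := by
  classical
  intro J _ K _ _ _ hdeg hdisc Φ hΦ n i Δ hΔ
  refine h3 J K Φ hΦ n Δ ?_
  have key := h1 J (fun j => K j →+* QBar) (actHom K).range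
    (by
      rintro _ ⟨τ, rfl⟩ x
      rfl)
    (by
      intro j y y'
      obtain ⟨_, ⟨τ, rfl⟩, hτ⟩ := CMTP.transitive (K j) y y'
      refine ⟨actHom K τ, ⟨τ, rfl⟩, ?_⟩
      have : actHom K τ ⟨j, y⟩ = ⟨j, toPerm (K j) τ y⟩ := rfl
      rw [this, hτ])
    (by
      intro j
      obtain ⟨m, hm⟩ := hdeg j
      exact ⟨m, by rw [CMTP.card_emb, hm]⟩)
    conj conj_conj
    (by
      rintro _ ⟨τ, rfl⟩ x
      exact act_conj τ x)
    (fun x => rfl)
    (sg Φ)
    (by
      intro x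
      unfold sg
      split_ifs
      · exact odd_one
      · exact odd_neg_one)
    (sg_conj hΦ)
    (by
      intro S hS
      obtain ⟨τ, hτ⟩ := h2 J K hdisc {x | x.2 ∈ Φ x.1} (fun x => hΦ x.1 x.2) S hS
      refine ⟨actHom K τ, ⟨τ, rfl⟩, ?_⟩
      have hsg : ∀ x : Σ j, K j →+* QBar, sg Φ x ≡ 1 [ZMOD 4] ↔ x.2 ∈ Φ x.1 := by
        intro x
        unfold sg
        by_cases h : x.2 ∈ Φ x.1
        · rw [if_pos h]
          exact ⟨fun _ => h, fun _ => Int.ModEq.refl _⟩
        · rw [if_neg h]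
          exact ⟨fun h' => absurd h' (by decide), fun h' => absurd h' h⟩
      have hset : {x : Σ j, K j →+* QBar | x.1 ∈ S ∧ sg Φ x ≡ 1 [ZMOD 4] ∧
          ¬ sg Φ (actHom K τ x) ≡ 1 [ZMOD 4]} =
          {x : Σ j, K j →+* QBar | x.1 ∈ S ∧ x ∈ {x : Σ j, K j →+* QBar | x.2 ∈ Φ x.1} ∧
            act K τ x ∉ {x : Σ j, K j →+* QBar | x.2 ∈ Φ x.1}} := by
        ext x
        simp only [Set.mem_ofPred_eq, hsg]
        rfl
      rw [hset]
      exact hτ)
    (fun x => mult Δ x - mult Δ (conj x))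
    (by
      intro x
      rw [conj_conj]
      ring)
    (by
      rintro _ ⟨τ, rfl⟩
      have e1 := relation Φ i Δ hΔ τ
      have e2 : ∑ x, sg Φ (act K τ x) * mult Δ (conj x) = 0 := by
        have e3 : ∑ x, sg Φ (act K τ (conj x)) * mult Δ (conj (conj x)) =
            ∑ x, sg Φ (act K τ x) * mult Δ (conj x) :=
          Fintype.sum_equiv (Function.Involutive.toPerm conj conj_conj) _ _ (fun _ => rfl)
        rw [← e3]
        have e4 : ∀ x : Σ j, K j →+* QBar, sg Φ (act K τ (conj x)) * mult Δ (conj (conj x)) =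
            - (sg Φ (act K τ x) * mult Δ x) := by
          intro x
          rw [← act_conj, sg_conj hΦ, conj_conj]
          ring
        simp only [e4]
        rw [Finset.sum_neg_distrib, e1, neg_zero]
      have e5 : ∀ x : Σ j, K j →+* QBar, sg Φ ((actHom K τ) x) * (mult Δ x - mult Δ (conj x)) =
          sg Φ (act K τ x) * mult Δ x - sg Φ (act K τ x) * mult Δ (conj x) := by
        intro x
        have : (actHom K τ) x = act K τ x := rfl
        rw [this]
        ring
      simp only [e5]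
      rw [Finset.sum_sub_distrib, e1, e2, sub_self])
  intro x
  have := congrFun key x
  simp only [Pi.zero_apply] at this
  linarith

end Pool.Agent.FFT
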