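import Mathlib
import Pool.Agent.FFT.Targets

set_option autoImplicit false

/-!
# The fixed vector of a Sylow 2-subgroup: several transitive blocks of 2-power size
-/

namespace Pool.Agent.FFT

namespace COMBA_

open Finset MulAction
open scoped BigOperators

open Classical in
/-- the family of weights -/
def Fam {X : Type} (H : Subgroup (Equiv.Perm X)) (c : X → X) (a : X → ℤ) : Set (X → ℤ) :=
  {v | ∃ g ∈ H, ∃ g' ∈ H, ∃ Q : Set X, (∀ x, x ∈ Q ↔ c x ∉ Q) ∧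
    ∀ x, v x = if x ∈ Q then (a (g x) - a (g' x)) / 2 else 0}

theorem fam_stable {X : Type} (H : Subgroup (Equiv.Perm X)) (c : X → X)
    (hc : ∀ h ∈ H, ∀ x, c (h x) = h (c x)) (a : X → ℤ) :
    ∀ v ∈ Fam H c a, ∀ h ∈ H, (fun x => v (h x)) ∈ Fam H c a := by
  rintro v ⟨g, hg, g', hg', Q, hQ, hv⟩ h hh
  refine ⟨g * h, H.mul_mem hg hh, g' * h, H.mul_mem hg' hh, {x | h x ∈ Q}, ?_, ?_⟩
  · intro x
    show h x ∈ Q ↔ ¬ (h (c x) ∈ Q)
    rw [← hc h hh x]
    exact hQ (h x)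
  · intro x
    exact hv (h x)

theorem fam_orth {X : Type} [Fintype X] (H : Subgroup (Equiv.Perm X)) (c : X → X)
    (hcc : ∀ x, c (c x) = x)
    (hc : ∀ h ∈ H, ∀ x, c (h x) = h (c x)) (a : X → ℤ) (ha : ∀ x, Odd (a x))
    (hac : ∀ x, a (c x) = - a x) (f : X → ℤ) (hfc : ∀ x, f (c x) = - f x)
    (hf : ∀ h ∈ H, ∑ x, a (h x) * f x = 0) :
    ∀ v ∈ Fam H c a, ∑ x, v x * f x = 0 := by
  classical
  rintro v ⟨g, hg, g', hg', Q, hQ, hv⟩
  let d : X → ℤ := fun x => (a (g x) - a (g' x)) / 2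
  have hd : ∀ x, 2 * d x = a (g x) - a (g' x) := by
    intro x
    obtain ⟨u, hu⟩ := ha (g x)
    obtain ⟨u', hu'⟩ := ha (g' x)
    show 2 * ((a (g x) - a (g' x)) / 2) = a (g x) - a (g' x)
    rw [hu, hu']
    omega
  have hdc : ∀ x, d (c x) = - d x := by
    intro x
    have h1 := hd (c x)
    have h2 := hd x
    rw [← hc g hg x, ← hc g' hg' x, hac, hac] at h1
    omega
  have hv' : ∀ x, v x = if x ∈ Q then d x else 0 := hv
  have h1 : ∑ x, v x * f x = ∑ x, v (c x) * f (c x) := by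
    refine (Fintype.sum_equiv (Function.Involutive.toPerm c hcc) _ _ fun x => ?_).symm
    rfl
  have h2 : ∀ x, v (c x) * f (c x) = (if x ∈ Q then 0 else d x) * f x := by
    intro x
    rw [hv' (c x), hfc x, hdc x]
    by_cases hx : x ∈ Q
    · rw [if_pos hx, if_neg ((hQ x).1 hx)]
      ring
    · have : c x ∈ Q := by
        by_contra h
        exact hx ((hQ x).2 h)
      rw [if_neg hx, if_pos this]
      ring
  have h3 : ∑ x, v x * f x + ∑ x, v (c x) * f (c x) = ∑ x, d x * f x := by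
    rw [← Finset.sum_add_distrib]
    refine Finset.sum_congr rfl fun x _ => ?_
    rw [h2 x, hv' x]
    by_cases hx : x ∈ Q
    · rw [if_pos hx, if_pos hx]
      ring
    · rw [if_neg hx, if_neg hx]
      ring
  have h4 : 2 * ∑ x, d x * f x = 0 := by
    rw [Finset.mul_sum]
    have : ∀ x ∈ (Finset.univ : Finset X), 2 * (d x * f x) = a (g x) * f x - a (g' x) * f x := by
      intro x _
      rw [← mul_assoc, hd x]
      ring
    rw [Finset.sum_congr rfl this, Finset.sum_sub_distrib, hf g hg, hf g' hg', sub_zero]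
  rw [← h1] at h3
  omega

/-- the action on one block -/
@[instance_reducible] def blockAct {J : Type} {Y : J → Type} (H : Subgroup (Equiv.Perm (Σ j, Y j)))
    (hb : ∀ h ∈ H, ∀ x, (h x).1 = x.1) (j : J) : MulAction H {x : Σ j, Y j // x.1 = j} where
  smul h x := ⟨h.1 x.1, (hb h.1 h.2 x.1).trans x.2⟩
  one_smul x := rfl
  mul_smul h k x := rfl

theorem card_block {J : Type} {Y : J → Type} (j : J) :
    Nat.card {x : Σ j, Y j // x.1 = j} = Nat.card (Y j) := by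
  refine (Nat.card_congr (Equiv.ofBijective
    (fun y : Y j => (⟨⟨j, y⟩, rfl⟩ : {x : Σ j, Y j // x.1 = j})) ⟨?_, ?_⟩)).symm
  · intro y y' h
    have h1 := congrArg Subtype.val h
    exact eq_of_heq (Sigma.mk.inj h1).2
  · rintro ⟨⟨i, y⟩, hi⟩
    have hi' : i = j := hi
    subst hi'
    exact ⟨y, rfl⟩

theorem transitive_block {J : Type} [Fintype J] {Y : J → Type} [∀ j, Fintype (Y j)]
    (H : Subgroup (Equiv.Perm (Σ j, Y j)))
    (hb : ∀ h ∈ H, ∀ x, (h x).1 = x.1)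
    (htr : ∀ j, ∀ y y' : Y j, ∃ h ∈ H, h ⟨j, y⟩ = ⟨j, y'⟩)
    (j : J) (m : ℕ) (hm : Fintype.card (Y j) = 2 ^ m) (P : Sylow 2 H)
    (x x' : Σ j, Y j) (hx : x.1 = j) (hx' : x'.1 = j) : ∃ k ∈ P, k.1 x = x' := by
  classical
  letI := blockAct H hb j
  have ht : IsPretransitive H {x : Σ j, Y j // x.1 = j} := ⟨by
    rintro ⟨⟨i, y⟩, hi⟩ ⟨⟨i', y'⟩, hi'⟩
    have e1 : i = j := hi
    have e2 : i' = j := hi'
    subst e1
    subst e2
    obtain ⟨h, hh, hy⟩ := htr i' y y'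
    exact ⟨⟨h, hh⟩, Subtype.ext hy⟩⟩
  have hc : Nat.card {x : Σ j, Y j // x.1 = j} = 2 ^ m := by
    rw [card_block, Nat.card_eq_fintype_card, hm]
  obtain ⟨k, hk, hkx⟩ := Pool.Agent.CMTP.sylow_transitive 2 m hc ht P ⟨x, hx⟩ ⟨x', hx'⟩
  exact ⟨k, hk, congrArg Subtype.val hkx⟩

end COMBA_

open Finset MulAction COMBA_ in
theorem p_COMBA : T_COMBA := by
  classical
  intro J _ Y _ H hb htr hcard c hcc hc hc1 a ha hac hS f hfc hf
  by_contra hf0
  let P0 : Sylow 2 H := default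
  let P : Subgroup (Equiv.Perm (Σ j, Y j)) := P0.1.map H.subtype
  have hPH : P ≤ H := by
    rintro _ ⟨g1, _, rfl⟩
    exact g1.2
  obtain ⟨s, hs0, hsP, hsum⟩ := Pool.Agent.CMTP.exists_fixed 2 P (P0.2.map H.subtype)
    (Fam H c a) (fun v hv h hh => fam_stable H c hc a v hv h (hPH hh)) f hf0
    (fam_orth H c hcc hc a ha hac f hfc hf)
  have hconst : ∀ x x' : Σ j, Y j, x.1 = x'.1 → s x = s x' := by
    intro x x' hxx
    obtain ⟨m, hm⟩ := hcard x'.1
    obtain ⟨k, hk, hkx⟩ := transitive_block H hb htr x'.1 m hm P0 x x' hxx rfl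
    rw [← hkx]
    exact (hsP k.1 ⟨k, hk, rfl⟩ x).symm
  have hz2 : ∀ z : ZMod 2, z ≠ 0 → z = 1 := by decide
  let S : Finset J := Finset.univ.filter fun j => ∃ x : Σ j, Y j, x.1 = j ∧ s x ≠ 0
  have hSn : S.Nonempty := by
    obtain ⟨x, hx⟩ := Function.ne_iff.1 hs0
    exact ⟨x.1, Finset.mem_filter.2 ⟨Finset.mem_univ _, x, rfl, hx⟩⟩
  have hin : ∀ x : Σ j, Y j, x.1 ∈ S → s x = 1 := by
    intro x hx
    obtain ⟨x', hx', hsx'⟩ := (Finset.mem_filter.1 hx).2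
    rw [hconst x x' hx'.symm]
    exact hz2 _ hsx'
  have hout : ∀ x : Σ j, Y j, x.1 ∉ S → s x = 0 := by
    intro x hx
    by_contra h
    exact hx (Finset.mem_filter.2 ⟨Finset.mem_univ _, x, rfl, h⟩)
  obtain ⟨h, hh, hodd⟩ := hS S hSn
  let Q : Set (Σ j, Y j) := {x | a x ≡ 1 [ZMOD 4]}
  have hQ : ∀ x, x ∈ Q ↔ c x ∉ Q := by
    intro x
    show a x ≡ 1 [ZMOD 4] ↔ ¬ (a (c x) ≡ 1 [ZMOD 4])
    rw [hac]
    obtain ⟨u, hu⟩ := ha x
    rw [hu]
    unfold Int.ModEq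
    omega
  let v : (Σ j, Y j) → ℤ := fun x => if x ∈ Q then
    (a ((1 : Equiv.Perm (Σ j, Y j)) x) - a (h x)) / 2 else 0
  have hv : v ∈ Fam H c a := ⟨1, H.one_mem, h, hh, Q, hQ, fun x => by
    by_cases hx : x ∈ Q
    · simp only [v, if_pos hx]
    · simp only [v, if_neg hx]⟩
  have h1 := hsum v hv
  have h2 : ∀ x : Σ j, Y j, (v x : ZMod 2) * s x =
      if (x.1 ∈ S ∧ a x ≡ 1 [ZMOD 4] ∧ ¬ a (h x) ≡ 1 [ZMOD 4]) then (1 : ZMod 2) else 0 := by
    intro x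
    by_cases hxS : x.1 ∈ S
    · rw [hin x hxS, mul_one]
      by_cases hxQ : a x ≡ 1 [ZMOD 4]
      · have hvx : v x = (a x - a (h x)) / 2 := by
          show (if x ∈ Q then (a ((1 : Equiv.Perm (Σ j, Y j)) x) - a (h x)) / 2 else 0) = _
          rw [if_pos (show x ∈ Q from hxQ)]
          rfl
        by_cases hhx : a (h x) ≡ 1 [ZMOD 4]
        · rw [if_neg (by tauto), hvx, ZMod.intCast_zmod_eq_zero_iff_dvd]
          unfold Int.ModEq at hxQ hhx
          have : (((2 : ℕ) : ℤ)) = 2 := rfl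
          rw [this]
          omega
        · rw [if_pos ⟨hxS, hxQ, hhx⟩, hvx]
          apply hz2
          rw [Ne, ZMod.intCast_zmod_eq_zero_iff_dvd]
          obtain ⟨u, hu⟩ := ha (h x)
          unfold Int.ModEq at hxQ hhx
          have : (((2 : ℕ) : ℤ)) = 2 := rfl
          rw [this]
          rw [hu] at hhx ⊢
          omega
      · have hvx : v x = 0 := by
          show (if x ∈ Q then (a ((1 : Equiv.Perm (Σ j, Y j)) x) - a (h x)) / 2 else 0) = _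
          rw [if_neg (show x ∉ Q from hxQ)]
        rw [hvx, if_neg (by tauto)]
        simp
    · rw [hout x hxS, mul_zero, if_neg (by tauto)]
  rw [Finset.sum_congr rfl fun x _ => h2 x, Finset.sum_boole] at h1
  have h3 : {x : Σ j, Y j | x.1 ∈ S ∧ a x ≡ 1 [ZMOD 4] ∧ ¬ a (h x) ≡ 1 [ZMOD 4]}.ncard =
      (Finset.univ.filter fun x : Σ j, Y j =>
        x.1 ∈ S ∧ a x ≡ 1 [ZMOD 4] ∧ ¬ a (h x) ≡ 1 [ZMOD 4]).card := by
    rw [← Set.ncard_coe_finset]
    congr 1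
    ext x
    simp
  rw [h3] at hodd
  have h4 : ¬ Odd ((Finset.univ.filter fun x : Σ j, Y j =>
        x.1 ∈ S ∧ a x ≡ 1 [ZMOD 4] ∧ ¬ a (h x) ≡ 1 [ZMOD 4]).card) := by
    rw [Nat.not_odd_iff_even, even_iff_two_dvd]
    exact (ZMod.natCast_eq_zero_iff _ _).1 h1
  exact h4 hodd

end Pool.Agent.FFT
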