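import Mathlib
import Pool.Agent.FFT.Targets

set_option autoImplicit false

/-!
# The fixed vector of a Sylow subgroup on a set of prime power cardinality
-/

namespace Pool.Agent.FFT

namespace COMBB_

open Finset MulAction
open scoped BigOperators

variable {Y : Type} [Fintype Y]

/-- The sum over the group is independent of the point. -/
theorem sum_const (H : Subgroup (Equiv.Perm Y)) [Fintype H]
    (htr : ∀ y y' : Y, ∃ h ∈ H, h y = y') (w : Y → ℤ) (y y' : Y) :
    ∑ h : H, w (h.1 y) = ∑ h : H, w (h.1 y') := by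
  obtain ⟨k, hk, hky⟩ := htr y' y
  let k' : H := ⟨k, hk⟩
  have h1 : ∀ h : H, w (h.1 y) = w ((h * k').1 y') := by
    intro h
    have : (h * k').1 y' = h.1 y := by
      show (h.1 * k) y' = h.1 y
      rw [Equiv.Perm.mul_apply, hky]
    rw [this]
  rw [Finset.sum_congr rfl fun h _ => h1 h]
  exact Fintype.sum_equiv (Equiv.mulRight k') _ _ fun h => rfl

/-- The sum of `f` vanishes. -/
theorem sum_zero (l n : ℕ) (hY : Fintype.card Y = l ^ n)
    (H : Subgroup (Equiv.Perm Y)) (htr : ∀ y y' : Y, ∃ h ∈ H, h y = y') (w : Y → ℤ) (B : ℤ)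
    (hB : 2 * ∑ y, w y ≠ B * l ^ n) (f : Y → ℤ) (y0 : Y)
    (hf : ∀ h ∈ H, ∑ y, (2 * w (h y) - B) * f y = 0) : ∑ y, f y = 0 := by
  classical
  haveI : Fintype H := Fintype.ofFinite H
  set S : ℤ := ∑ h : H, w (h.1 y0) with hS
  have hSy : ∀ y, ∑ h : H, w (h.1 y) = S := fun y => sum_const H htr w y y0
  -- the total
  have h1 : (Fintype.card Y : ℤ) * S = (Fintype.card H : ℤ) * ∑ y, w y := by
    have h2 : ∑ y : Y, ∑ h : H, w (h.1 y) = (Fintype.card Y : ℤ) * S := by
      rw [Finset.sum_congr rfl fun y _ => hSy y, Finset.sum_const, Finset.card_univ,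
        nsmul_eq_mul]
    have h3 : ∑ y : Y, ∑ h : H, w (h.1 y) = (Fintype.card H : ℤ) * ∑ y, w y := by
      rw [Finset.sum_comm]
      have h4 : ∀ h : H, ∑ y, w (h.1 y) = ∑ y, w y := fun h =>
        Fintype.sum_equiv h.1 _ _ fun y => rfl
      rw [Finset.sum_congr rfl fun h _ => h4 h, Finset.sum_const, Finset.card_univ,
        nsmul_eq_mul]
    rw [← h2, h3]
  have h5 : ∑ h : H, ∑ y, (2 * w (h.1 y) - B) * f y = 0 :=
    Finset.sum_eq_zero fun h _ => hf h.1 h.2
  rw [Finset.sum_comm] at h5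
  have h6 : ∀ y, ∑ h : H, (2 * w (h.1 y) - B) * f y =
      (2 * S - (Fintype.card H : ℤ) * B) * f y := by
    intro y
    rw [← Finset.sum_mul, Finset.sum_sub_distrib, ← Finset.mul_sum, hSy y, Finset.sum_const,
      Finset.card_univ, nsmul_eq_mul]
  rw [Finset.sum_congr rfl fun y _ => h6 y, ← Finset.mul_sum] at h5
  have hH : (Fintype.card H : ℤ) ≠ 0 := by
    exact_mod_cast Fintype.card_ne_zero
  have hcY : (Fintype.card Y : ℤ) = (l : ℤ) ^ n := by
    rw [hY]
    push_cast
    rfl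
  rcases mul_eq_zero.1 h5 with h7 | h7
  · exfalso
    apply hB
    have h8 : (Fintype.card H : ℤ) * (2 * ∑ y, w y) =
        (Fintype.card H : ℤ) * (B * (l : ℤ) ^ n) := by
      calc (Fintype.card H : ℤ) * (2 * ∑ y, w y)
          = 2 * ((Fintype.card H : ℤ) * ∑ y, w y) := by ring
        _ = 2 * ((Fintype.card Y : ℤ) * S) := by rw [h1]
        _ = (Fintype.card Y : ℤ) * (2 * S) := by ring
        _ = (l : ℤ) ^ n * ((Fintype.card H : ℤ) * B) := by
            rw [hcY, show 2 * S = (Fintype.card H : ℤ) * B by linarith]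
        _ = (Fintype.card H : ℤ) * (B * (l : ℤ) ^ n) := by ring
    exact mul_left_cancel₀ hH h8
  · exact h7

end COMBB_

open Finset MulAction COMBB_ in
theorem p_COMBB : T_COMBB := by
  classical
  intro Y _ l n hl hY H htr w B hlw hB f hf
  haveI : Fact l.Prime := ⟨hl⟩
  have hne : Nonempty Y := by
    rw [← Fintype.card_pos_iff, hY]
    exact pow_pos hl.pos n
  obtain ⟨y0⟩ := hne
  have hT := sum_zero l n hY H htr w B hB f y0 hf
  -- the relations for `w`
  have hrel : ∀ h ∈ H, ∑ y, w (h y) * f y = 0 := by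
    intro h hh
    have h1 := hf h hh
    have h2 : ∑ y, (2 * w (h y) - B) * f y = 2 * ∑ y, w (h y) * f y - B * ∑ y, f y := by
      rw [Finset.mul_sum, Finset.mul_sum, ← Finset.sum_sub_distrib]
      refine Finset.sum_congr rfl fun y _ => ?_
      ring
    rw [h2, hT, mul_zero, sub_zero] at h1
    omega
  by_contra hf0
  let act : MulAction H Y :=
    { smul := fun h y => h.1 y
      one_smul := fun y => rfl
      mul_smul := fun h k y => rfl }
  have ht : IsPretransitive H Y := ⟨fun x y => by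
    obtain ⟨h, hh, hxy⟩ := htr x y
    exact ⟨⟨h, hh⟩, hxy⟩⟩
  let P0 : Sylow l H := default
  have hcY : Nat.card Y = l ^ n := by
    rw [Nat.card_eq_fintype_card, hY]
  have htrans := Pool.Agent.CMTP.sylow_transitive l n hcY ht P0
  let P : Subgroup (Equiv.Perm Y) := P0.1.map H.subtype
  have hPH : P ≤ H := by
    rintro _ ⟨g1, _, rfl⟩
    exact g1.2
  obtain ⟨s, hs0, hsP, hsum⟩ := Pool.Agent.CMTP.exists_fixed l P (P0.2.map H.subtype)
    {a | ∃ h ∈ H, a = fun y => w (h y)} (by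
      rintro a ⟨h, hh, rfl⟩ k hk
      exact ⟨h * k, H.mul_mem hh (hPH hk), rfl⟩) f hf0 (by
      rintro a ⟨h, hh, rfl⟩
      exact hrel h hh)
  have hc : ∀ y, s y = s y0 := by
    intro y
    obtain ⟨g, hg, hgx⟩ := htrans y0 y
    have h1 : g.1 y0 = y := hgx
    rw [← h1]
    exact hsP g.1 ⟨g, hg, rfl⟩ y0
  have hc0 : s y0 ≠ 0 := by
    intro h0
    apply hs0
    funext y
    rw [hc y, h0]
    rfl
  have h1 := hsum (fun y => w y) ⟨1, H.one_mem, rfl⟩
  have h2 : (∑ y, (w y : ZMod l)) * s y0 = 0 := by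
    rw [Finset.sum_mul, ← h1]
    refine Finset.sum_congr rfl fun y _ => ?_
    rw [hc y]
  rcases mul_eq_zero.1 h2 with h3 | h3
  · apply hlw
    rw [← ZMod.intCast_zmod_eq_zero_iff_dvd]
    push_cast
    exact h3
  · exact hc0 h3

end Pool.Agent.FFT
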