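import Pool.Agent.FFT.Targets
import Pool.Agent.CMTP.NormSq

set_option autoImplicit false

/-!
# T_DISC: discriminants whose product is not a square
-/

namespace Pool.Agent.FFT

open NumberField Finset Module
open Pool.Agent.CMT (QBar)
open Pool.Agent.CMTP (toPerm)
open scoped BigOperators

namespace DISC_

theorem single (K : Type) [Field K] [NumberField K] [DecidableEq (K →+* QBar)]
    [Fintype (K →+* QBar)] : ∃ δ : QBar, δ ^ 2 = ((discr K : ℚ) : QBar) ∧
      ∀ τ : QBar ≃+* QBar, τ δ = (((Equiv.Perm.sign (toPerm K τ) : ℤˣ) : ℤ) : QBar) * δ := by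
  classical
  have hc : Fintype.card (Free.ChooseBasisIndex ℤ (𝓞 K)) = Fintype.card (K →ₐ[ℚ] QBar) := by
    rw [AlgHom.card, ← finrank_eq_card_basis (integralBasis K)]
  let e : Free.ChooseBasisIndex ℤ (𝓞 K) ≃ (K →ₐ[ℚ] QBar) := Fintype.equivOfCardEq hc
  let e' : Free.ChooseBasisIndex ℤ (𝓞 K) ≃ (K →+* QBar) := e.trans (RingHom.equivRatAlgHom (K) QBar).symm
  refine ⟨(Algebra.embeddingsMatrixReindex ℚ QBar (integralBasis K) e).det, ?_, fun τ => ?_⟩
  · rw [coe_discr]
    have h := Algebra.discr_eq_det_embeddingsMatrixReindex_pow_two ℚ QBar (integralBasis K) e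
    rw [← h]
    exact eq_ratCast _ _
  · let σ : Equiv.Perm (Free.ChooseBasisIndex ℤ (𝓞 K)) := e'.symm.permCongr (toPerm K τ)
    have hsig : Equiv.Perm.sign σ = Equiv.Perm.sign (toPerm K τ) := Equiv.Perm.sign_permCongr _ _
    have h1 : (τ : QBar →+* QBar).mapMatrix
        (Algebra.embeddingsMatrixReindex ℚ QBar (integralBasis K) e) =
        (Algebra.embeddingsMatrixReindex ℚ QBar (integralBasis K) e).submatrix id σ := by
      ext k i
      show τ (e i (integralBasis K k)) = e (σ i) (integralBasis K k)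
      have h2 : e' (σ i) = toPerm K τ (e' i) := by
        simp [σ, Equiv.permCongr_apply]
      have h3 := congrArg (fun f : K →+* QBar => f (integralBasis K k)) h2
      exact h3.symm
    have h4 : τ (Algebra.embeddingsMatrixReindex ℚ QBar (integralBasis K) e).det =
        ((τ : QBar →+* QBar).mapMatrix
          (Algebra.embeddingsMatrixReindex ℚ QBar (integralBasis K) e)).det :=
      RingHom.map_det (τ : QBar →+* QBar) _
    rw [h4, h1, Matrix.det_permute', hsig]

end DISC_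

theorem p_DISC : T_DISC := by
  classical
  intro J _ K _ _ S hS
  choose δ hδ hτ using fun j => @DISC_.single (K j) _ _
    (fun a b => Classical.propDecidable (a = b)) inferInstance
  have h1 : (∏ j ∈ S, δ j) ^ 2 = (((∏ j ∈ S, discr (K j) : ℤ) : ℚ) : QBar) := by
    rw [← Finset.prod_pow, Finset.prod_congr rfl fun j _ => hδ j]
    push_cast
    rfl
  have h2 : ¬ IsSquare (((∏ j ∈ S, discr (K j) : ℤ) : ℚ)) := by
    rw [Rat.isSquare_intCast_iff]
    exact hS
  obtain ⟨τ, hτ'⟩ := Pool.Agent.CMTP.exists_neg _ _ h1 h2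
  refine ⟨τ, ?_⟩
  have h3 : τ (∏ j ∈ S, δ j) =
      (((∏ j ∈ S, Equiv.Perm.sign (toPerm (K j) τ) : ℤˣ) : ℤ) : QBar) * ∏ j ∈ S, δ j := by
    rw [map_prod, Finset.prod_congr rfl fun j _ => hτ j τ, Finset.prod_mul_distrib]
    push_cast
    rfl
  have h4 : (∏ j ∈ S, δ j) ≠ 0 := by
    intro h0
    rw [h0] at h1
    apply h2
    have h5 : (((∏ j ∈ S, discr (K j) : ℤ) : ℚ) : QBar) = 0 := by
      rw [← h1]; ring
    rw [Rat.cast_eq_zero] at h5
    rw [h5]
    exact ⟨0, by ring⟩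
  rw [hτ'] at h3
  have h6 : (((∏ j ∈ S, Equiv.Perm.sign (toPerm (K j) τ) : ℤˣ) : ℤ) : QBar) = -1 := by
    have h7 : ((((∏ j ∈ S, Equiv.Perm.sign (toPerm (K j) τ) : ℤˣ) : ℤ) : QBar) + 1) *
        ∏ j ∈ S, δ j = 0 := by
      rw [add_mul, ← h3]; ring
    rcases mul_eq_zero.1 h7 with h8 | h8
    · exact eq_neg_of_add_eq_zero_left h8
    · exact absurd h8 h4
  have h9 : ((∏ j ∈ S, Equiv.Perm.sign (toPerm (K j) τ) : ℤˣ) : ℤ) = -1 := by
    exact_mod_cast h6
  exact Units.ext h9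

end Pool.Agent.FFT
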