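import Mathlib
import Pool.Agent.FFT.Targets
import Pool.Agent.FFT.DISC

set_option autoImplicit false
set_option linter.unusedSectionVars false

/-!
# CM fields of 2-power degree with a discriminant that is not a square
-/

namespace Pool.Agent.FFT

open NumberField Finset Module
open Pool.Agent.CMT (QBar IsCMType cc cc_cc)
open Pool.Agent.CMTP
open scoped BigOperators

theorem ndeg_of_disc (hS : T_SIGN) {K : Type} [Field K] [NumberField K] [IsCMField K] (m : ℕ)
    (hK : finrank ℚ K = 2 ^ m) (hd : ¬ IsSquare (discr K)) (Φ : Finset (K →+* QBar))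
    (hΦ : IsCMType K Φ) : NDeg (HG K) cc Φ := by
  classical
  obtain ⟨τ, hτ⟩ := p_DISC Unit (fun _ => K) Finset.univ (by simpa using hd)
  have h1 : Equiv.Perm.sign (toPerm K τ) = -1 := by
    rw [Finset.univ_unique, Finset.prod_singleton] at hτ
    rw [← hτ]
  have h2 := hS (K →+* QBar) (toPerm K τ) cc cc_cc
    (fun x => hg_cc (toPerm K τ) ⟨τ, rfl⟩ x) Φ hΦ
  rw [h1] at h2
  have hodd : Odd (Φ.filter (fun x => toPerm K τ x ∉ Φ)).card := by
    rw [← Nat.not_even_iff_odd]
    intro he
    rw [he.neg_one_pow] at h2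
    exact absurd h2 (by decide)
  refine ndeg_of_odd m (by rw [card_emb, hK]) (HG K) (transitive K) cc cc_cc hg_cc Φ hΦ
    (toPerm K τ)⁻¹ ((HG K).inv_mem ⟨τ, rfl⟩) ?_
  have e : Φ \ Φ.image ((toPerm K τ)⁻¹ : Equiv.Perm (K →+* QBar)) =
      Φ.filter (fun x => toPerm K τ x ∉ Φ) := by
    ext x
    rw [Finset.mem_sdiff, Finset.mem_filter, Finset.mem_image]
    refine and_congr_right fun _ => not_congr ?_
    constructor
    · rintro ⟨y, hy, rfl⟩
      simpa using hy
    · intro hy
      exact ⟨_, hy, by simp⟩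
  rw [e]
  exact hodd

end Pool.Agent.FFT
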