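import Pool.Agent.FFT.Targets

set_option autoImplicit false

/-!
# Finite fields, Frobenius fields of 2-power degree with independent discriminants (job FFT-FA)
-/

namespace Pool.Agent.FFT

open NumberField Finset Module
open Pool.Agent.CMT (QBar IsCMType cc)
open Pool.Agent.CMTP (toPerm)
open scoped BigOperators

namespace FA_

/-- the action as a homomorphism -/
noncomputable def actHom {J : Type} (K : J → Type) [∀ j, Field (K j)] [∀ j, NumberField (K j)] :
    (QBar ≃+* QBar) →* Equiv.Perm (Σ j, K j →+* QBar) where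
  toFun := act K
  map_one' := rfl
  map_mul' := fun _ _ => rfl

theorem conj_conj {J : Type} {K : J → Type} [∀ j, Field (K j)] [∀ j, NumberField (K j)]
    [∀ j, IsCMField (K j)] (x : Σ j, K j →+* QBar) : conj (conj x) = x := by
  rcases x with ⟨j, φ⟩
  simp only [conj, Pool.Agent.CMT.cc_cc]

theorem act_conj {J : Type} {K : J → Type} [∀ j, Field (K j)] [∀ j, NumberField (K j)]
    [∀ j, IsCMField (K j)] (τ : QBar ≃+* QBar) (x : Σ j, K j →+* QBar) :
    act K τ (conj x) = conj (act K τ x) := rfl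

end FA_

open FA_

theorem p_FA (h1 : T_COMBA) (h2 : T_PAR) (h3 : T_NORM) (h4 : T_FINF) : T_FA := by
  intro p hp a q ha hq J _ K _ _ _ hfin hdisc π hW hS n i Δ hΔ
  have hι : Nonempty (QBar →+* PadicAlgCl p) := by
    have := CMTP.isAlgebraic_QBar ℚ
    exact ⟨(IsAlgClosed.lift : QBar →ₐ[ℚ] PadicAlgCl p).toRingHom⟩
  obtain ⟨ι⟩ := hι
  obtain ⟨B, w, hB, hw, -, hrel⟩ := h3 p a q 2 ha hq Nat.prime_two J K π hW hS ι
  have hrel' := hrel n i Δ hΔ
  have hBodd : ∃ b : ℤ, (B : ℤ) = 2 * b + 1 := by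
    have h5 : Odd B := by
      rw [← Nat.not_even_iff_odd, even_iff_two_dvd]
      exact hB
    obtain ⟨b, hb⟩ := h5
    exact ⟨b, by rw [hb]; push_cast; ring⟩
  obtain ⟨b, hb⟩ := hBodd
  set av : (Σ j, K j →+* QBar) → ℤ := fun x => 2 * w x - B with hav
  have havc : ∀ x, av (conj x) = - av x := by
    intro x
    have := hw x
    simp only [hav]
    linarith
  set f : (Σ j, K j →+* QBar) → ℤ := fun x => mult Δ x - mult Δ (conj x) with hf
  have hf0 : f = 0 := by
    refine h1 J (fun j => K j →+* QBar) (actHom K).range ?_ ?_ ?_ conj conj_conj ?_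
      (fun x => rfl) av ?_ havc ?_ f ?_ ?_
    · rintro _ ⟨τ, rfl⟩ x
      rfl
    · intro j y y'
      obtain ⟨_, ⟨τ, rfl⟩, hτ⟩ := CMTP.transitive (K j) y y'
      refine ⟨actHom K τ, ⟨τ, rfl⟩, ?_⟩
      show (⟨j, toPerm (K j) τ y⟩ : Σ j, K j →+* QBar) = ⟨j, y'⟩
      rw [hτ]
    · intro j
      obtain ⟨m, hm⟩ := hfin j
      exact ⟨m, by rw [CMTP.card_emb, hm]⟩
    · rintro _ ⟨τ, rfl⟩ x
      rfl
    · intro x
      refine ⟨w x - b - 1, ?_⟩
      simp only [hav, hb]
      ring
    · intro S hSn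
      obtain ⟨τ, hτ⟩ := h2 J K hdisc {x | av x ≡ 1 [ZMOD 4]} (by
        intro x
        show av x ≡ 1 [ZMOD 4] ↔ ¬ av (conj x) ≡ 1 [ZMOD 4]
        rw [havc]
        have h5 : av x = 2 * (w x - b) - 1 := by
          simp only [hav, hb]
          ring
        rw [h5]
        simp only [Int.ModEq]
        omega) S hSn
      exact ⟨actHom K τ, ⟨τ, rfl⟩, hτ⟩
    · intro x
      simp only [hf, conj_conj]
      ring
    · rintro _ ⟨τ, rfl⟩
      show ∑ x, av (act K τ x) * f x = 0
      have h5 : ∑ x, av (act K τ x) * mult Δ (conj x) = - ∑ x, av (act K τ x) * mult Δ x := by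
        rw [← Finset.sum_neg_distrib]
        refine Fintype.sum_equiv (Function.Involutive.toPerm conj conj_conj) _ _ fun x => ?_
        show av (act K τ x) * mult Δ (conj x) = -(av (act K τ (conj x)) * mult Δ (conj x))
        rw [act_conj, havc]
        ring
      have h6 : ∑ x, av (act K τ x) * mult Δ x = 0 := by
        rw [← hrel' τ]
        refine Finset.sum_congr rfl fun x _ => ?_
        simp only [hav]
        ring
      simp only [hf, mul_sub, Finset.sum_sub_distrib]
      rw [h5, h6]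
      simp
  refine h4 J K q π hW n Δ fun x => ?_
  have h5 := congrFun hf0 x
  simp only [hf, Pi.zero_apply] at h5
  linarith

end Pool.Agent.FFT
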