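import Pool.Agent.FFT.Targets

set_option autoImplicit false

/-!
# FB: Frobenius fields of degree `2 l ^ n` which contain an imaginary quadratic field
-/

namespace Pool.Agent.FFT

open NumberField Finset Module
open Pool.Agent.CMT (QBar IsCMType cc cc_cc)
open Pool.Agent.CMTP (toPerm)
open scoped BigOperators

namespace FB_

theorem norm_q (p : ℕ) [hp : Fact p.Prime] (a q : ℕ) (ha : 1 ≤ a) (hq : q = p ^ a) :
    0 < ‖(q : PadicAlgCl p)‖ ∧ ‖(q : PadicAlgCl p)‖ < 1 := by
  have hq0 : q ≠ 0 := by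
    rw [hq]
    exact pow_ne_zero _ hp.out.ne_zero
  have h1 : ‖(q : PadicAlgCl p)‖ = ‖(q : ℚ_[p])‖ := by
    have := PadicAlgCl.norm_extends p (q : ℚ_[p])
    rw [← this]
    congr 1
  rw [h1]
  constructor
  · rw [norm_pos_iff]
    exact Nat.cast_ne_zero.2 hq0
  · rw [hq]
    push_cast
    rw [norm_pow]
    have h2 : ‖(p : ℚ_[p])‖ < 1 := Padic.norm_p_lt_one
    exact pow_lt_one₀ (norm_nonneg _) h2 (by omega)

theorem exists_emb (p : ℕ) [Fact p.Prime] : Nonempty (QBar →+* PadicAlgCl p) := by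
  have : Algebra.IsAlgebraic ℚ QBar := CMTP.isAlgebraic_QBar ℚ
  exact ⟨((IsAlgClosed.lift : QBar →ₐ[ℚ] PadicAlgCl p) : QBar →+* PadicAlgCl p)⟩

theorem exists_restrict (p : ℕ) [Fact p.Prime] (ι : QBar →+* PadicAlgCl p) (E : Type) [Field E]
    [NumberField E] (ψ : E →+* PadicAlgCl p) : ∃ φ : E →+* QBar, ι.comp φ = ψ := by
  classical
  have hinj : Function.Injective (fun φ : E →+* QBar => ι.comp φ) := by
    intro φ φ' h
    ext x
    apply ι.injective
    exact congrArg (fun g : E →+* PadicAlgCl p => g x) h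
  have h1 : Fintype.card (E →+* QBar) = finrank ℚ E := Embeddings.card E QBar
  have h2 : Fintype.card (E →+* PadicAlgCl p) = finrank ℚ E := Embeddings.card E (PadicAlgCl p)
  have h3 := (Fintype.bijective_iff_injective_and_card
    (fun φ : E →+* QBar => ι.comp φ)).2 ⟨hinj, by rw [h1, h2]⟩
  exact h3.2 ψ

theorem two_elts {A : Type} [Fintype A] (h : Fintype.card A = 2) (a b : A) (hab : a ≠ b) (c : A) :
    c = a ∨ c = b := by
  classical
  have h1 : ({a, b} : Finset A) = univ := by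
    apply Finset.eq_univ_of_card
    rw [Finset.card_pair hab, h]
  have h2 : c ∈ ({a, b} : Finset A) := by
    rw [h1]
    exact Finset.mem_univ c
  simpa using h2

/-- the embeddings of `K` over `φ0`, as algebra homomorphisms -/
theorem card_over (E K : Type) [Field E] [NumberField E] [Field K] [NumberField K] [Algebra E K]
    (φ0 : E →+* QBar) [Fintype {φ : K →+* QBar // φ.comp (algebraMap E K) = φ0}] :
    Fintype.card {φ : K →+* QBar // φ.comp (algebraMap E K) = φ0} = finrank E K ∧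
    ∀ x : K, φ0 (Algebra.norm E x) =
      ∏ φ : {φ : K →+* QBar // φ.comp (algebraMap E K) = φ0}, φ.1 x := by
  classical
  let alg : Algebra E QBar := φ0.toAlgebra
  have hfd : FiniteDimensional E K := Module.Finite.of_restrictScalars_finite ℚ E K
  let eq : {φ : K →+* QBar // φ.comp (algebraMap E K) = φ0} ≃ (K →ₐ[E] QBar) :=
    { toFun := fun φ => { φ.1 with
        commutes' := fun x => congrArg (fun g : E →+* QBar => g x) φ.2 }
      invFun := fun σ => ⟨(σ : K →+* QBar), by
        ext x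
        exact σ.commutes x⟩
      left_inv := fun φ => by
        ext x
        rfl
      right_inv := fun σ => by
        ext x
        rfl }
  constructor
  · rw [Fintype.card_congr eq]
    exact AlgHom.card E K QBar
  · intro x
    have h := Algebra.norm_eq_prod_embeddings E QBar x
    have h2 : φ0 (Algebra.norm E x) = algebraMap E QBar (Algebra.norm E x) := rfl
    rw [h2, h]
    exact (Fintype.prod_equiv eq _ _ fun φ => rfl).symm

theorem arith (l n : ℕ) (hl : l.Prime) (h3 : 3 ≤ l ^ n) (W : ℤ) (B : ℕ) (hW : ¬ (l : ℤ) ∣ W) :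
    2 * W ≠ B * l ^ n := by
  intro h
  have hn : n ≠ 0 := by
    rintro rfl
    norm_num at h3
  obtain ⟨m, rfl⟩ := Nat.exists_eq_succ_of_ne_zero hn
  have hlp : Prime (l : ℤ) := Nat.prime_iff_prime_int.1 hl
  have h1 : (l : ℤ) ∣ 2 * W := by
    rw [h, Nat.succ_eq_add_one, pow_succ]
    exact ⟨B * (l : ℤ) ^ m, by ring⟩
  rcases hlp.dvd_or_dvd h1 with h2 | h2
  · have h4 : l ∣ 2 := by exact_mod_cast h2
    have h5 : l = 2 := (Nat.prime_dvd_prime_iff_eq hl Nat.prime_two).1 h4
    subst h5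
    have hm : m ≠ 0 := by
      rintro rfl
      norm_num at h3
    obtain ⟨r, rfl⟩ := Nat.exists_eq_succ_of_ne_zero hm
    apply hW
    refine ⟨B * 2 ^ r, ?_⟩
    have h6 : 2 * W = 2 * (2 * (B * 2 ^ r)) := by
      rw [h]
      push_cast
      rw [show r.succ.succ = r + 2 from rfl]
      ring
    have := mul_left_cancel₀ (two_ne_zero) h6
    rw [this]
    push_cast
    ring
  · exact hW h2

end FB_

open FB_ in
theorem p_FB (h1 : T_COMBB) (h2 : T_NORM) (h3 : T_FINF) : T_FB := by
  classical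
  intro p hp a q ha hq l n hl hln E K _ _ _ _ _ _ hE hK he π hπ hsl hnorm
  obtain ⟨e, he⟩ := he
  obtain ⟨ψ, b, k, hlk, hb, hψ⟩ := hnorm
  obtain ⟨hN0, hN1⟩ := norm_q p a q ha hq
  obtain ⟨ι⟩ := exists_emb p
  obtain ⟨φ0, hφ0⟩ := exists_restrict p ι E ψ
  obtain ⟨B, w, hB, hcw, hw, hrel⟩ := h2 p a q l ha hq hl Unit (fun _ => K)
    (fun _ => π) (fun _ => hπ) (fun _ => hsl) ι
  intro N i Δ hΔ
  -- the set `Y`
  let Y : Type := {φ : K →+* QBar // φ.comp (algebraMap E K) = φ0}
  have hcomm : ∀ (τ : QBar ≃+* QBar) (φ : K →+* QBar),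
      (toPerm K τ φ).comp (algebraMap E K) =
        (τ : QBar →+* QBar).comp (φ.comp (algebraMap E K)) := by
    intro τ φ
    rfl
  have hone : ∀ φ : K →+* QBar, φ.comp (algebraMap E K) ≠ (cc φ).comp (algebraMap E K) := by
    intro φ h
    apply he
    apply φ.injective
    exact (congrArg (fun g : E →+* QBar => g e) h).symm
  have hcardE : Fintype.card (E →+* QBar) = 2 := by
    rw [Embeddings.card E QBar, hE]
  have hor : ∀ φ : K →+* QBar, φ.comp (algebraMap E K) = φ0 ∨
      (cc φ).comp (algebraMap E K) = φ0 := by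
    intro φ
    rcases two_elts hcardE _ _ (hone φ) φ0 with h | h
    · exact Or.inl h.symm
    · exact Or.inr h.symm
  have hnot : ∀ φ : K →+* QBar, φ.comp (algebraMap E K) = φ0 →
      ¬ (cc φ).comp (algebraMap E K) = φ0 := by
    intro φ h h'
    exact hone φ (h.trans h'.symm)
  obtain ⟨hcard, hnm⟩ := card_over E K φ0
  have hfin : finrank E K = l ^ n := by
    have h := Module.finrank_mul_finrank ℚ E K
    rw [hE, hK] at h
    exact Nat.eq_of_mul_eq_mul_left (by norm_num) h
  let M : (K →+* QBar) → ℤ := fun φ => mult (K := fun _ : Unit => K) Δ ⟨(), φ⟩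
  let w' : (K →+* QBar) → ℤ := fun φ => w ⟨(), φ⟩
  have hsum : ∀ τ : QBar ≃+* QBar, ∑ φ, M φ * (2 * w' (toPerm K τ φ) - B) = 0 := by
    intro τ
    have e := hrel N i Δ hΔ τ
    rw [Fintype.sum_sigma, Fintype.sum_unique] at e
    exact e
  have hwc : ∀ φ, w' (cc φ) = B - w' φ := by
    intro φ
    have := hcw ⟨(), φ⟩
    have h5 : w' φ + w' (cc φ) = B := this
    linarith
  -- the relation on `Y`
  have hrelY : ∀ τ : QBar ≃+* QBar,
      ∑ y : Y, (2 * w' (toPerm K τ y.1) - B) * (M y.1 - M (cc y.1)) = 0 := by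
    intro τ
    rw [← hsum τ]
    rw [← Finset.sum_add_sum_compl (univ.filter fun φ : K →+* QBar =>
      φ.comp (algebraMap E K) = φ0)]
    have e1 : ∑ φ ∈ (univ.filter fun φ : K →+* QBar =>
        φ.comp (algebraMap E K) = φ0)ᶜ, M φ * (2 * w' (toPerm K τ φ) - B) =
        ∑ φ ∈ (univ.filter fun φ : K →+* QBar => φ.comp (algebraMap E K) = φ0),
          M (cc φ) * (2 * w' (toPerm K τ (cc φ)) - B) := by
      refine Finset.sum_bij' (fun φ _ => cc φ) (fun φ _ => cc φ) ?_ ?_ ?_ ?_ ?_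
      · intro φ hφ
        rw [Finset.mem_compl, Finset.mem_filter] at hφ
        rw [Finset.mem_filter]
        refine ⟨Finset.mem_univ _, ?_⟩
        rcases hor φ with h | h
        · exact absurd ⟨Finset.mem_univ _, h⟩ hφ
        · exact h
      · intro φ hφ
        rw [Finset.mem_filter] at hφ
        rw [Finset.mem_compl, Finset.mem_filter]
        rintro ⟨-, h⟩
        exact hnot φ hφ.2 h
      · intro φ _
        exact cc_cc φ
      · intro φ _
        exact cc_cc φ
      · intro φ _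
        rw [cc_cc]
    rw [e1, ← Finset.sum_add_distrib]
    rw [← Finset.sum_subtype (univ.filter fun φ : K →+* QBar =>
      φ.comp (algebraMap E K) = φ0) (p := fun φ => φ.comp (algebraMap E K) = φ0)
      (fun φ => by simp) (fun φ => (2 * w' (toPerm K τ φ) - B) * (M φ - M (cc φ)))]
    refine Finset.sum_congr rfl fun φ _ => ?_
    have e2 : w' (toPerm K τ (cc φ)) = B - w' (toPerm K τ φ) := by
      rw [← hwc]
      rfl
    rw [e2]
    ring
  -- the sum of the weights
  have hW : (∑ y : Y, w' y.1) * b = k * B := by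
    have e1 : ‖ψ (Algebra.norm E π)‖ ^ B = ‖(q : PadicAlgCl p)‖ ^ (∑ y : Y, w' y.1) := by
      rw [← hφ0]
      show ‖ι (φ0 (Algebra.norm E π))‖ ^ B = _
      rw [hnm π, map_prod, norm_prod, ← Finset.prod_pow]
      rw [← Finset.prod_congr rfl (fun (y : Y) _ => (hw ⟨(), y.1⟩).symm)]
      have : ∀ s : Finset Y, ∏ y ∈ s, ‖(q : PadicAlgCl p)‖ ^ (w ⟨(), y.1⟩) =
          ‖(q : PadicAlgCl p)‖ ^ (∑ y ∈ s, w' y.1) := by
        intro s
        induction s using Finset.induction_on with
        | empty => simp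
        | insert x s hx ih =>
          rw [Finset.prod_insert hx, Finset.sum_insert hx, ih, zpow_add₀ hN0.ne']
      exact this univ
    have e2 : ‖(q : PadicAlgCl p)‖ ^ ((∑ y : Y, w' y.1) * b) =
        ‖(q : PadicAlgCl p)‖ ^ ((k : ℤ) * B) := by
      rw [zpow_mul, ← e1, zpow_mul, zpow_natCast, zpow_natCast, zpow_natCast, ← hψ]
      ring
    exact zpow_right_injective₀ hN0 hN1.ne e2
  have hlp : Prime (l : ℤ) := Nat.prime_iff_prime_int.1 hl
  have hlW : ¬ (l : ℤ) ∣ ∑ y : Y, w' y.1 := by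
    intro h
    have h4 : (l : ℤ) ∣ (k : ℤ) * B := by
      rw [← hW]
      exact Dvd.dvd.mul_right h _
    rcases hlp.dvd_or_dvd h4 with h5 | h5
    · exact hlk (by exact_mod_cast h5)
    · exact hB (by exact_mod_cast h5)
  -- the group
  let H : Subgroup (Equiv.Perm Y) :=
    { carrier := {h | ∃ τ : QBar ≃+* QBar, ∀ y : Y, (h y).1 = toPerm K τ y.1}
      one_mem' := ⟨1, fun y => rfl⟩
      mul_mem' := by
        rintro g g' ⟨τ, hτ⟩ ⟨τ', hτ'⟩
        refine ⟨τ * τ', fun y => ?_⟩
        rw [map_mul, Equiv.Perm.mul_apply, Equiv.Perm.mul_apply, hτ, hτ']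
      inv_mem' := by
        rintro g ⟨τ, hτ⟩
        refine ⟨τ⁻¹, fun y => ?_⟩
        rw [map_inv]
        have h6 : (g (g⁻¹ y)).1 = toPerm K τ (g⁻¹ y).1 := hτ (g⁻¹ y)
        have h7 : g (g⁻¹ y) = y := g.apply_symm_apply y
        rw [h7] at h6
        rw [h6]
        exact ((toPerm K τ).symm_apply_apply _).symm }
  have htrans : ∀ y y' : Y, ∃ h ∈ H, h y = y' := by
    intro y y'
    obtain ⟨_, ⟨τ, rfl⟩, hτ⟩ := CMTP.transitive K y.1 y'.1
    have hτ0 : (τ : QBar →+* QBar).comp φ0 = φ0 := by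
      have e1 := hcomm τ y.1
      rw [hτ, y.2, y'.2] at e1
      exact e1.symm
    have hpres : ∀ φ : K →+* QBar, φ.comp (algebraMap E K) = φ0 →
        (toPerm K τ φ).comp (algebraMap E K) = φ0 := by
      intro φ h
      rw [hcomm, h, hτ0]
    have hτ0' : ((τ⁻¹ : QBar ≃+* QBar) : QBar →+* QBar).comp φ0 = φ0 := by
      ext x
      show (τ⁻¹ : QBar ≃+* QBar) (φ0 x) = φ0 x
      have e1 : τ (φ0 x) = φ0 x := congrArg (fun g : E →+* QBar => g x) hτ0
      have e2 : (τ⁻¹ : QBar ≃+* QBar) (τ (φ0 x)) = φ0 x := τ.symm_apply_apply _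
      rw [e1] at e2
      exact e2
    have hpres' : ∀ φ : K →+* QBar, φ.comp (algebraMap E K) = φ0 →
        (toPerm K τ⁻¹ φ).comp (algebraMap E K) = φ0 := by
      intro φ h
      rw [hcomm, h, hτ0']
    let g : Equiv.Perm Y :=
      { toFun := fun y => ⟨toPerm K τ y.1, hpres y.1 y.2⟩
        invFun := fun y => ⟨toPerm K τ⁻¹ y.1, hpres' y.1 y.2⟩
        left_inv := fun y => by
          apply Subtype.ext
          show toPerm K τ⁻¹ (toPerm K τ y.1) = y.1
          rw [map_inv]
          exact (toPerm K τ).symm_apply_apply _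
        right_inv := fun y => by
          apply Subtype.ext
          show toPerm K τ (toPerm K τ⁻¹ y.1) = y.1
          rw [map_inv]
          exact (toPerm K τ).apply_symm_apply _ }
    exact ⟨g, ⟨τ, fun y => rfl⟩, Subtype.ext hτ⟩
  have hf := h1 Y l n hl (hcard.trans hfin) H htrans (fun y => w' y.1) B hlW
    (arith l n hl hln _ B hlW) (fun y => M y.1 - M (cc y.1)) (by
      rintro h ⟨τ, hτ⟩
      have e1 := hrelY τ
      rw [← e1]
      refine Finset.sum_congr rfl fun y _ => ?_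
      rw [hτ y])
  refine h3 Unit (fun _ => K) q (fun _ => π) (fun _ => hπ) N Δ ?_
  rintro ⟨⟨⟩, φ⟩
  show M φ = M (cc φ)
  rcases hor φ with h | h
  · have e1 : M φ - M (cc φ) = 0 := congrFun hf (⟨φ, h⟩ : Y)
    omega
  · have e1 : M (cc φ) - M (cc (cc φ)) = 0 := congrFun hf (⟨cc φ, h⟩ : Y)
    rw [cc_cc] at e1
    omega

end Pool.Agent.FFT
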