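import Pool.Agent.FFT.Targets

/-!
# FC: finite fields, all sign changes, all Weil numbers
-/

set_option autoImplicit false

namespace Pool.Agent.FFT

open NumberField Finset Module
open Pool.Agent.CMT (QBar IsCMType cc cc_cc)
open Pool.Agent.CMTP (toPerm)
open scoped BigOperators

namespace FC_

open Classical in
/-- a product over a set of eigenlines in terms of the multiplicities -/
theorem prod_mult {J : Type} [Fintype J] {K : J → Type} [∀ j, Field (K j)]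
    [∀ j, NumberField (K j)] {n : J → ℕ} (Δ : Finset (Idx K n))
    (F : (Σ j, K j →+* QBar) → QBar) :
    ∏ x ∈ Δ, F ⟨x.1, x.2.1⟩ = ∏ y, F y ^ (mult Δ y) := by
  rw [← Finset.prod_fiberwise' Δ (fun x : Idx K n => (⟨x.1, x.2.1⟩ : Σ j, K j →+* QBar)) F]
  refine Finset.prod_congr rfl fun y _ => ?_
  rw [Finset.prod_const, mult, zpow_natCast]
  congr 1
  symm
  refine Finset.card_bij (fun s _ => (⟨y.1, y.2, s⟩ : Idx K n)) ?_ ?_ ?_
  · intro s hs
    rw [Finset.mem_filter] at hs ⊢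
    exact ⟨hs.2, rfl⟩
  · intro s _ t _ h
    have h1 := eq_of_heq (Sigma.mk.inj h).2
    exact (Prod.mk.inj h1).2
  · rintro ⟨j, φ, s⟩ hb
    rw [Finset.mem_filter] at hb
    obtain ⟨h1, h2⟩ := hb
    obtain ⟨j', φ'⟩ := y
    obtain ⟨rfl, h3⟩ := Sigma.mk.inj h2
    have h4 := eq_of_heq h3
    subst h4
    exact ⟨s, Finset.mem_filter.2 ⟨Finset.mem_univ _, h1⟩, rfl⟩

end FC_

open FC_ Classical in
theorem p_FC (hfinf : T_FINF) : T_FC := by
  intro Λ _ K _ _ _ hflip q hq m π hπ hind n i Δ hΔ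
  obtain ⟨hcard, N, hN, hR⟩ := hΔ
  refine hfinf _ _ q _ (fun x => hπ x.1 x.2) n Δ ?_
  rintro ⟨⟨l0, s0⟩, φ0⟩
  obtain ⟨τ, hτ1, hτ2, hτ3⟩ := hflip l0 φ0
  have hτ1' : (τ : QBar →+* QBar).comp (cc φ0) = φ0 := by
    rw [Pool.Agent.CMT.comp_cc, hτ1, cc_cc]
  have hne : ∀ l s, π l s ≠ 0 := by
    intro l s h0
    have h1 := (hπ l s).2
    rw [h0, zero_mul] at h1
    exact hq.ne' (by exact_mod_cast h1.symm)
  have hcne : ∀ l s, IsCMField.complexConj (K l) (π l s) ≠ 0 := by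
    intro l s h0
    exact hne l s ((map_eq_zero _).1 h0)
  -- the quotient of the product by its image under the automorphism
  have h1 : (∏ x ∈ Δ, (x.2.1 (π x.1.1 x.1.2) / τ (x.2.1 (π x.1.1 x.1.2)))) ^ N = 1 := by
    rw [Finset.prod_div_distrib, ← map_prod, div_pow, ← map_pow, hR]
    have : τ ((q : QBar) ^ (i * N)) = (q : QBar) ^ (i * N) := by
      rw [map_pow, map_natCast]
    rw [this]
    exact div_self (pow_ne_zero _ (by exact_mod_cast hq.ne'))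
  have h2 := prod_mult Δ (fun y => y.2 (π y.1.1 y.1.2) / τ (y.2 (π y.1.1 y.1.2)))
  have h3 : ∏ y : (Σ j : (Σ l, Fin (m l)), K j.1 →+* QBar),
      (y.2 (π y.1.1 y.1.2) / τ (y.2 (π y.1.1 y.1.2))) ^ (mult Δ y) =
      φ0 (∏ s, (π l0 s / IsCMField.complexConj (K l0) (π l0 s)) ^
        (mult Δ ⟨⟨l0, s⟩, φ0⟩ - mult Δ ⟨⟨l0, s⟩, cc φ0⟩)) := by
    rw [Fintype.prod_sigma, Fintype.prod_sigma]
    rw [Finset.prod_eq_single l0]
    · rw [map_prod]
      refine Finset.prod_congr rfl fun s _ => ?_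
      rw [Finset.prod_eq_mul φ0 (cc φ0) (Pool.Agent.CMTP.cc_ne φ0).symm]
      · have e1 : τ (φ0 (π l0 s)) = cc φ0 (π l0 s) := congrArg (fun f => f (π l0 s)) hτ1
        have e2 : τ (cc φ0 (π l0 s)) = φ0 (π l0 s) := congrArg (fun f => f (π l0 s)) hτ1'
        have e3 : cc φ0 (π l0 s) = φ0 (IsCMField.complexConj (K l0) (π l0 s)) := rfl
        have e4 : φ0 (π l0 s) ≠ 0 := (map_ne_zero φ0).2 (hne l0 s)
        have e5 : φ0 (IsCMField.complexConj (K l0) (π l0 s)) ≠ 0 :=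
          (map_ne_zero φ0).2 (hcne l0 s)
        show (φ0 (π l0 s) / τ (φ0 (π l0 s))) ^ (mult Δ ⟨⟨l0, s⟩, φ0⟩) *
          (cc φ0 (π l0 s) / τ (cc φ0 (π l0 s))) ^ (mult Δ ⟨⟨l0, s⟩, cc φ0⟩) = _
        rw [e1, e2, e3, map_zpow₀, map_div₀, zpow_sub₀ (div_ne_zero e4 e5)]
        rw [← inv_div (φ0 (π l0 s)), inv_zpow]
        rfl
      · intro φ _ hφ
        have e1 : τ (φ (π l0 s)) = φ (π l0 s) :=
          congrArg (fun f => f (π l0 s)) (hτ2 φ hφ.1 hφ.2)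
        show (φ (π l0 s) / τ (φ (π l0 s))) ^ (mult Δ ⟨⟨l0, s⟩, φ⟩) = 1
        rw [e1, div_self ((map_ne_zero φ).2 (hne l0 s)), one_zpow]
      · intro h
        exact absurd (Finset.mem_univ _) h
      · intro h
        exact absurd (Finset.mem_univ _) h
    · intro l _ hl
      refine Finset.prod_eq_one fun s _ => Finset.prod_eq_one fun φ _ => ?_
      have e1 : τ (φ (π l s)) = φ (π l s) := congrArg (fun f => f (π l s)) (hτ3 l hl φ)
      show (φ (π l s) / τ (φ (π l s))) ^ (mult Δ ⟨⟨l, s⟩, φ⟩) = 1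
      rw [e1, div_self ((map_ne_zero φ).2 (hne l s)), one_zpow]
    · intro h
      exact absurd (Finset.mem_univ _) h
  rw [h2, h3, ← map_pow] at h1
  have h4 := hind l0 (fun s => mult Δ ⟨⟨l0, s⟩, φ0⟩ - mult Δ ⟨⟨l0, s⟩, cc φ0⟩) N hN
    (φ0.injective (by rw [h1, map_one]))
  have h5 := congrFun h4 s0
  exact sub_eq_zero.1 h5

end Pool.Agent.FFT
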