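import Mathlib
import Pool.Agent.FFT.FB
import Pool.Agent.FFT.COMBB
import Pool.Agent.FFT.NORM
import Pool.Agent.FFT.FINF
import Pool.Agent.FFT.MATCH

set_option autoImplicit false

/-!
# Abelian varieties of prime power dimension over finite fields whose Frobenius field contains an
imaginary quadratic field

Let `K` be a CM field of degree `2 l ^ n`, `l` prime, `l ^ n` at least 3, which contains an imaginary
quadratic field `E`, and let `π` be a Weil `q`-number in `K` all of whose slopes have denominators
prime to `l` (for instance an ordinary one), such that the slope of the norm of `π` in `E` has a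
numerator prime to `l`. Then all Tate weights on all powers of abelian varieties over the field with
`q` elements with Weil number `π` are disjoint unions of Tate weights of codimension one.
-/

namespace Pool.Agent.FFT.ImaginaryQuadraticSubfield

open NumberField Module Pool.Agent.FFT

/-- the slope of the norm of `π` in `E` is a rational number with numerator prime to `l` -/
def NormSlope (E K : Type) [Field E] [Field K] [Algebra E K] (p : ℕ) [Fact p.Prime] (q l : ℕ)
    (π : K) : Prop :=
  ∃ (ψ : E →+* PadicAlgCl p) (b k : ℕ), ¬ l ∣ k ∧ 0 < b ∧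
    ‖ψ (Algebra.norm E π)‖ ^ b = ‖(q : PadicAlgCl p)‖ ^ k

/-- **Tate classes for Frobenius fields of degree `2 l ^ n` with an imaginary quadratic
subfield.** -/
theorem result : ∀ (p : ℕ) [Fact p.Prime] (a q : ℕ), 1 ≤ a → q = p ^ a →
    ∀ (l n : ℕ), l.Prime → 3 ≤ l ^ n →
    ∀ (E K : Type) [Field E] [NumberField E] [Field K] [NumberField K] [IsCMField K]
      [Algebra E K], finrank ℚ E = 2 → finrank ℚ K = 2 * l ^ n →
      (∃ e : E, IsCMField.complexConj K (algebraMap E K e) ≠ algebraMap E K e) →
      ∀ π : K, IsWeil q π → SlopesPrimeTo p q l π → NormSlope E K p q l π →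
        TateByDivisors q (fun _ : Unit => π) := by
  intro p _ a q ha hq l n hl hln E K _ _ _ _ _ _ hE hK hc π h1 h2 h3
  exact p_FB p_COMBB p_NORM (p_FINF p_MATCH) p a q ha hq l n hl hln E K hE hK hc π h1 h2 h3

end Pool.Agent.FFT.ImaginaryQuadraticSubfield
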