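import Mathlib
import Pool.Agent.FFT.Targets

set_option autoImplicit false

/-!
# FFT, target PAR: odd numbers of sign changes
-/

namespace Pool.Agent.FFT

open NumberField Finset Module
open Pool.Agent.CMT (QBar IsCMType cc)
open Pool.Agent.CMTP (toPerm)
open scoped BigOperators

namespace PAR_

theorem ncard_sigma {J : Type} [Fintype J] [DecidableEq J] {Y : J → Type} [∀ j, Fintype (Y j)]
    (S : Finset J) (Q : (Σ j, Y j) → Prop) [DecidablePred Q] :
    {x : Σ j, Y j | x.1 ∈ S ∧ Q x}.ncard =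
      ∑ j ∈ S, ((univ : Finset (Y j)).filter (fun y => Q ⟨j, y⟩)).card := by
  rw [← Finset.card_sigma]
  rw [← Set.ncard_coe_finset]
  congr 1
  ext x
  simp

end PAR_

open PAR_ in
theorem p_PAR (h1 : T_SIGN) (h2 : T_DISC) : T_PAR := by
  intro J _ K _ _ _ hdisc P hP S hS
  classical
  obtain ⟨τ, hτ⟩ := h2 J K S (hdisc S hS)
  refine ⟨τ, ?_⟩
  have h3 : {x : Σ j, K j →+* QBar | x.1 ∈ S ∧ x ∈ P ∧ act K τ x ∉ P}.ncard =
      ∑ j ∈ S, ((univ : Finset (K j →+* QBar)).filter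
        (fun y => (⟨j, y⟩ : Σ j, K j →+* QBar) ∈ P ∧
          act K τ (⟨j, y⟩ : Σ j, K j →+* QBar) ∉ P)).card :=
    ncard_sigma S (fun x => x ∈ P ∧ act K τ x ∉ P)
  rw [h3]
  have h4 : ∀ j, Equiv.Perm.sign (toPerm (K j) τ) =
      (-1) ^ ((univ : Finset (K j →+* QBar)).filter
        (fun y => (⟨j, y⟩ : Σ j, K j →+* QBar) ∈ P ∧
          act K τ (⟨j, y⟩ : Σ j, K j →+* QBar) ∉ P)).card := by
    intro j
    have h5 := h1 (K j →+* QBar) (toPerm (K j) τ) cc CMT.cc_cc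
      (fun x => CMTP.hg_cc (toPerm (K j) τ) ⟨τ, rfl⟩ x)
      ((univ : Finset (K j →+* QBar)).filter
        (fun y => (⟨j, y⟩ : Σ j, K j →+* QBar) ∈ P)) (fun x => by
          rw [Finset.mem_filter, Finset.mem_filter]
          have h6 := hP ⟨j, x⟩
          have h7 : (conj (⟨j, x⟩ : Σ j, K j →+* QBar)) = ⟨j, cc x⟩ := rfl
          rw [h7] at h6
          constructor
          · rintro ⟨_, h8⟩ ⟨_, h9⟩
            exact h6.mp h8 h9
          · intro h8
            exact ⟨Finset.mem_univ _, h6.mpr fun h9 => h8 ⟨Finset.mem_univ _, h9⟩⟩)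
    rw [h5, Finset.filter_filter]
    congr 2
    refine Finset.filter_congr fun x _ => ?_
    rw [Finset.mem_filter]
    have h10 : act K τ (⟨j, x⟩ : Σ j, K j →+* QBar) = ⟨j, toPerm (K j) τ x⟩ := rfl
    rw [h10]
    constructor
    · rintro ⟨h11, h12⟩
      exact ⟨h11, fun h13 => h12 ⟨Finset.mem_univ _, h13⟩⟩
    · rintro ⟨h11, h12⟩
      exact ⟨h11, fun h13 => h12 h13.2⟩
  rw [Finset.prod_congr rfl fun j _ => h4 j, Finset.prod_pow_eq_pow_sum] at hτ
  by_contra hcon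
  rw [Nat.not_odd_iff_even] at hcon
  rw [hcon.neg_one_pow] at hτ
  exact absurd hτ (by decide)

end Pool.Agent.FFT
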