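import Pool.Agent.FFT.Targets

set_option autoImplicit false

namespace Pool.Agent.FFT.SIGN_

open Equiv

/-- the case of a permutation which preserves the half system -/
theorem base {X : Type} [Fintype X] [DecidableEq X] (g : Perm X) (c : X → X)
    (hcc : ∀ x, c (c x) = x) (hcg : ∀ x, c (g x) = g (c x)) (p : X → Prop) [DecidablePred p]
    (hΦ : ∀ x, p x ↔ ¬ p (c x)) (h0 : ∀ x, p x → p (g x)) : Perm.sign g = 1 := by
  have hiff : ∀ x, p (g x) ↔ p x := by
    intro x
    constructor
    · intro hx
      by_contra hn
      have h1 : p (c x) := by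
        by_contra h2
        exact hn ((hΦ x).2 h2)
      have h3 : p (c (g x)) := by
        rw [hcg]
        exact h0 _ h1
      exact (hΦ (g x)).1 hx h3
    · exact h0 x
  have hiff' : ∀ x, ¬ p (g x) ↔ ¬ p x := fun x => not_congr (hiff x)
  let ep : Perm {x : X // p x} := g.subtypePerm hiff
  let en : Perm {x : X // ¬ p x} := g.subtypePerm hiff'
  have hg : g = ep.subtypeCongr en := by
    ext x
    by_cases hx : p x
    · rw [Perm.subtypeCongr.left_apply ep en hx]
      rfl
    · rw [Perm.subtypeCongr.right_apply ep en hx]
      rfl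
  let e : {x : X // p x} ≃ {x : X // ¬ p x} :=
    { toFun := fun x => ⟨c x.1, (hΦ x.1).1 x.2⟩
      invFun := fun x => ⟨c x.1, by
        by_contra h2
        exact x.2 ((hΦ x.1).2 h2)⟩
      left_inv := fun x => Subtype.ext (hcc x.1)
      right_inv := fun x => Subtype.ext (hcc x.1) }
  have hs : Perm.sign ep = Perm.sign en :=
    Perm.sign_eq_sign_of_equiv ep en e fun x => Subtype.ext (hcg x.1)
  calc Perm.sign g = Perm.sign (ep.subtypeCongr en) := by rw [← hg]
    _ = Perm.sign ep * Perm.sign en := Perm.sign_subtypeCongr ep en
    _ = Perm.sign en * Perm.sign en := by rw [hs]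
    _ = 1 := Int.units_mul_self _

theorem swap_comm' {X : Type} [DecidableEq X] (c : X → X)
    (hcc : ∀ x, c (c x) = x) (a y : X) :
    c (swap a (c a) y) = swap a (c a) (c y) := by
  by_cases h1 : y = a
  · subst h1
    rw [swap_apply_left, swap_apply_right, hcc]
  · by_cases h2 : y = c a
    · subst h2
      rw [swap_apply_right, hcc, swap_apply_left]
    · rw [swap_apply_of_ne_of_ne h1 h2, swap_apply_of_ne_of_ne]
      · intro h3
        apply h2
        rw [← h3, hcc]
      · intro h3
        apply h1
        have := congrArg c h3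
        rwa [hcc, hcc] at this

theorem main {X : Type} [Fintype X] [DecidableEq X] (c : X → X)
    (hcc : ∀ x, c (c x) = x) (Φ : Finset X) (hΦ : ∀ x, x ∈ Φ ↔ c x ∉ Φ) :
    ∀ (n : ℕ) (g : Perm X), (∀ x, c (g x) = g (c x)) →
      (Φ.filter (fun x => g x ∉ Φ)).card = n → Perm.sign g = (-1) ^ n := by
  intro n
  induction n with
  | zero =>
    intro g hcg hn
    rw [pow_zero]
    apply base g c hcc hcg (fun x => x ∈ Φ) hΦ
    intro x hx
    by_contra hgx
    have : x ∈ Φ.filter (fun x => g x ∉ Φ) := Finset.mem_filter.2 ⟨hx, hgx⟩
    rw [Finset.card_eq_zero.1 hn] at this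
    exact absurd this (Finset.notMem_empty x)
  | succ n ih =>
    intro g hcg hn
    have hne : (Φ.filter (fun x => g x ∉ Φ)).Nonempty := by
      rw [← Finset.card_pos, hn]
      exact Nat.succ_pos n
    obtain ⟨x0, hx0⟩ := hne
    obtain ⟨hx0Φ, hgx0⟩ := Finset.mem_filter.1 hx0
    have hcgx0 : c (g x0) ∈ Φ := by
      by_contra h2
      exact hgx0 ((hΦ (g x0)).2 h2)
    have hne' : g x0 ≠ c (g x0) := by
      intro h
      rw [← h] at hcgx0
      exact hgx0 hcgx0
    set g' : Perm X := swap (g x0) (c (g x0)) * g with hg'
    have hcg' : ∀ x, c (g' x) = g' (c x) := by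
      intro x
      rw [hg', Perm.mul_apply, Perm.mul_apply, swap_comm' c hcc, hcg x]
    have hset : Φ.filter (fun x => g' x ∉ Φ) = (Φ.filter (fun x => g x ∉ Φ)).erase x0 := by
      ext x
      rw [Finset.mem_erase, Finset.mem_filter, Finset.mem_filter]
      by_cases hx : x = x0
      · subst hx
        have : g' x = c (g x) := by
          rw [hg', Perm.mul_apply, swap_apply_left]
        constructor
        · rintro ⟨_, h2⟩
          rw [this] at h2
          exact absurd hcgx0 h2
        · rintro ⟨h1, _⟩
          exact absurd rfl h1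
      · constructor
        · rintro ⟨h1, h2⟩
          refine ⟨hx, h1, ?_⟩
          have : g' x = g x := by
            rw [hg', Perm.mul_apply, swap_apply_of_ne_of_ne]
            · intro h
              exact hx (g.injective h)
            · intro h
              rw [hcg] at h
              have h3 := g.injective h
              rw [h3] at h1
              exact (hΦ x0).1 hx0Φ h1
          rwa [this] at h2
        · rintro ⟨_, h1, h2⟩
          refine ⟨h1, ?_⟩
          have : g' x = g x := by
            rw [hg', Perm.mul_apply, swap_apply_of_ne_of_ne]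
            · intro h
              exact hx (g.injective h)
            · intro h
              rw [hcg] at h
              have h3 := g.injective h
              rw [h3] at h1
              exact (hΦ x0).1 hx0Φ h1
          rwa [this]
    have hcard : (Φ.filter (fun x => g' x ∉ Φ)).card = n := by
      rw [hset, Finset.card_erase_of_mem hx0, hn]
      rfl
    have h1 := ih g' hcg' hcard
    have h2 : Perm.sign g' = -1 * Perm.sign g := by
      rw [hg', Perm.sign_mul, Perm.sign_swap hne']
    have h3 : Perm.sign g = -1 * Perm.sign g' := by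
      rw [h2, ← mul_assoc]
      simp
    rw [h3, h1, pow_succ]
    exact mul_comm _ _

end Pool.Agent.FFT.SIGN_

namespace Pool.Agent.FFT

theorem p_SIGN : T_SIGN := by
  intro X _ _ g c hcc hcg Φ hΦ
  exact SIGN_.main c hcc Φ hΦ _ g hcg rfl

end Pool.Agent.FFT
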