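import Mathlib
import Pool.Agent.FFT.Targets

set_option autoImplicit false

namespace Pool.Agent.FFT
namespace SIGNh_

open Equiv

theorem base {X : Type} [Fintype X] [DecidableEq X] (g : Equiv.Perm X) (c : X → X)
    (hc : ∀ x, c (c x) = x) (hg : ∀ x, c (g x) = g (c x)) (Φ : Finset X)
    (hΦ : ∀ x, x ∈ Φ ↔ c x ∉ Φ) (hs : ∀ x ∈ Φ, g x ∈ Φ) : Equiv.Perm.sign g = 1 := by
  have h1 : ∀ x, x ∈ Φ ↔ g x ∈ Φ := by
    intro x
    refine ⟨hs x, fun h => ?_⟩
    by_contra hx
    have h2 : c x ∈ Φ := by
      by_contra h3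
      exact hx ((hΦ x).2 h3)
    have h4 := hs _ h2
    rw [← hg] at h4
    exact (hΦ (g x)).1 h h4
  have h2 : ∀ x, ¬ x ∈ Φ ↔ ¬ g x ∈ Φ := fun x => not_congr (h1 x)
  let ep : Equiv.Perm {x // x ∈ Φ} := g.subtypePerm (fun x => (h1 x).symm)
  let en : Equiv.Perm {x // ¬ x ∈ Φ} := g.subtypePerm (fun x => (h2 x).symm)
  have e1 : g = Equiv.Perm.subtypeCongr ep en := by
    ext x
    by_cases hx : x ∈ Φ
    · rw [Equiv.Perm.subtypeCongr.left_apply ep en hx]
      rfl
    · rw [Equiv.Perm.subtypeCongr.right_apply ep en hx]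
      rfl
  let e : {x // x ∈ Φ} ≃ {x // ¬ x ∈ Φ} :=
    { toFun := fun x => ⟨c x.1, (hΦ x.1).1 x.2⟩
      invFun := fun x => ⟨c x.1, by
        by_contra h
        exact x.2 ((hΦ x.1).2 h)⟩
      left_inv := fun x => Subtype.ext (hc x.1)
      right_inv := fun x => Subtype.ext (hc x.1) }
  have e2 : en = e.permCongr ep := by
    ext x
    show g x.1 = c (g (c x.1))
    rw [hg, hc]
  rw [e1, Equiv.Perm.sign_subtypeCongr, e2, Equiv.Perm.sign_permCongr]
  have h6 : ∀ i j : Fintype {x // x ∈ Φ}, @Equiv.Perm.sign _ _ i ep = @Equiv.Perm.sign _ _ j ep :=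
    fun i j => by rw [Subsingleton.elim i j]
  exact Eq.trans (congrArg₂ (· * ·) (h6 _ (Subtype.fintype _)) (h6 _ (Subtype.fintype _)))
    (Int.units_mul_self _)

end SIGNh_

open SIGNh_ in
theorem p_SIGN' : T_SIGN := by
  intro X _ _ g c hc hg Φ hΦ
  generalize hN : (Φ.filter (fun x => g x ∉ Φ)).card = N
  induction N generalizing g with
  | zero =>
    rw [pow_zero]
    refine base g c hc hg Φ hΦ fun x hx => ?_
    by_contra h
    have : x ∈ Φ.filter (fun x => g x ∉ Φ) := Finset.mem_filter.2 ⟨hx, h⟩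
    rw [Finset.card_eq_zero.1 hN] at this
    exact absurd this (Finset.notMem_empty x)
  | succ N ih =>
    obtain ⟨x0, hx0⟩ : (Φ.filter (fun x => g x ∉ Φ)).Nonempty := by
      rw [← Finset.card_pos, hN]
      omega
    obtain ⟨hx1, hx2⟩ := Finset.mem_filter.1 hx0
    have hne : ∀ x, c x ≠ x := by
      intro x h
      have := hΦ x
      rw [h] at this
      tauto
    let g' : Equiv.Perm X := Equiv.swap (g x0) (c (g x0)) * g
    have hinj : Function.Injective c := fun x y h => by rw [← hc x, h, hc]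
    have h1 : ∀ x, c (g' x) = g' (c x) := by
      intro x
      show c (Equiv.swap (g x0) (c (g x0)) (g x)) = Equiv.swap (g x0) (c (g x0)) (g (c x))
      rw [← hg]
      by_cases ha : g x = g x0
      · rw [ha, Equiv.swap_apply_left, Equiv.swap_apply_right, hc]
      · by_cases hb : g x = c (g x0)
        · rw [hb, Equiv.swap_apply_right, hc, Equiv.swap_apply_left]
        · rw [Equiv.swap_apply_of_ne_of_ne ha hb, Equiv.swap_apply_of_ne_of_ne]
          · intro h
            apply hb
            rw [← h, hc]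
          · intro h
            exact ha (hinj h)
    have h2 : (Φ.filter (fun x => g' x ∉ Φ)) = (Φ.filter (fun x => g x ∉ Φ)).erase x0 := by
      ext x
      rw [Finset.mem_erase, Finset.mem_filter, Finset.mem_filter]
      show x ∈ Φ ∧ Equiv.swap (g x0) (c (g x0)) (g x) ∉ Φ ↔ _
      by_cases ha : x = x0
      · rw [ha, Equiv.swap_apply_left]
        have : c (g x0) ∈ Φ := by
          by_contra h
          exact hx2 ((hΦ _).2 h)
        tauto
      · have ha' : g x ≠ g x0 := fun h => ha (g.injective h)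
        by_cases hb : g x = c (g x0)
        · rw [hb, Equiv.swap_apply_right]
          have h3 : x = c x0 := by
            apply g.injective
            rw [hb, hg]
          have h4 : x ∉ Φ := by
            rw [h3]
            exact (hΦ x0).1 hx1
          tauto
        · rw [Equiv.swap_apply_of_ne_of_ne ha' hb]
          tauto
    have h3 : (Φ.filter (fun x => g' x ∉ Φ)).card = N := by
      rw [h2, Finset.card_erase_of_mem hx0, hN]
      rfl
    have h4 := ih g' h1 h3
    have h5 : Equiv.Perm.sign g' = - Equiv.Perm.sign g := by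
      show Equiv.Perm.sign (Equiv.swap (g x0) (c (g x0)) * g) = _
      rw [Equiv.Perm.sign_mul, Equiv.Perm.sign_swap (hne _).symm, neg_one_mul]
    rw [h5] at h4
    rw [pow_succ, ← h4]
    simp

end Pool.Agent.FFT
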